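import Mathlib

/-!
# The graphs `H_k`: a subdivided clique with an apex (MP_bd932b_co)

`H_k` has vertices `x`, `y_1, ..., y_k` and one vertex `z_p` for each pair `p` of indices; `x` is
joined to every `y_i` and `z_p` to the two `y_i` with `i ∈ p`.
-/

set_option autoImplicit false

namespace Pool.Agent.H42.BD

open SimpleGraph Finset

/-- The pairs of indices. -/
abbrev Pr (k : ℕ) := {p : Finset (Fin k) // p.card = 2}

/-- The graph `H_k`: `x = inl ()` is joined to every `y_i = inr (inl i)`, and `z_p = inr (inr p)` is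
joined to the two `y_i` with `i ∈ p`. -/
def HG (k : ℕ) : SimpleGraph (Unit ⊕ (Fin k ⊕ {p : Finset (Fin k) // p.card = 2})) :=
  SimpleGraph.fromRel
    (fun a b : Unit ⊕ (Fin k ⊕ {p : Finset (Fin k) // p.card = 2}) =>
      (a = Sum.inl () ∧ ∃ i : Fin k, b = Sum.inr (Sum.inl i)) ∨
      (∃ (i : Fin k) (p : {p : Finset (Fin k) // p.card = 2}),
        a = Sum.inr (Sum.inl i) ∧ b = Sum.inr (Sum.inr p) ∧ i ∈ p.1))

/-- `f(n; H_k)`: the least number `m` such that every graph with `n` vertices and `m` edges contains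
`H_k`, that is, one more than the extremal number. -/
noncomputable def fT (n k : ℕ) : ℝ := (SimpleGraph.extremalNumber n (HG k) : ℝ) + 1

variable {V : Type*} {G : SimpleGraph V}

lemma HG_adj_x_y {k : ℕ} (i : Fin k) : (HG k).Adj (Sum.inl ()) (Sum.inr (Sum.inl i)) := by
  unfold HG
  rw [SimpleGraph.fromRel_adj]
  exact ⟨by simp, Or.inl (Or.inl ⟨rfl, i, rfl⟩)⟩

lemma HG_adj_y_z {k : ℕ} (i : Fin k) (p : Pr k) (h : i ∈ p.1) :
    (HG k).Adj (Sum.inr (Sum.inl i)) (Sum.inr (Sum.inr p)) := by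
  unfold HG
  rw [SimpleGraph.fromRel_adj]
  exact ⟨by simp, Or.inl (Or.inr ⟨i, p, rfl, rfl, h⟩)⟩

/-- A copy of `H_k` from its vertices. -/
lemma contained_of {k : ℕ} (x : V) (y : Fin k → V) (z : Pr k → V)
    (hy : Function.Injective y) (hz : Function.Injective z)
    (hxy : ∀ i, G.Adj x (y i)) (hyz : ∀ (p : Pr k) (i : Fin k), i ∈ p.1 → G.Adj (y i) (z p))
    (hxz : ∀ p, z p ≠ x) (hzy : ∀ p i, z p ≠ y i) : HG k ⊑ G := by
  let φ : Unit ⊕ (Fin k ⊕ {p : Finset (Fin k) // p.card = 2}) → V :=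
    Sum.elim (fun _ => x) (Sum.elim y z)
  have hrel : ∀ a b : Unit ⊕ (Fin k ⊕ {p : Finset (Fin k) // p.card = 2}),
      ((a = Sum.inl () ∧ ∃ i : Fin k, b = Sum.inr (Sum.inl i)) ∨
      (∃ (i : Fin k) (p : {p : Finset (Fin k) // p.card = 2}),
        a = Sum.inr (Sum.inl i) ∧ b = Sum.inr (Sum.inr p) ∧ i ∈ p.1)) → G.Adj (φ a) (φ b) := by
    rintro a b (⟨rfl, i, rfl⟩ | ⟨i, p, rfl, rfl, hip⟩)
    · exact hxy i
    · exact hyz p i hip
  have hhom : ∀ {a b}, (HG k).Adj a b → G.Adj (φ a) (φ b) := by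
    intro a b hab
    unfold HG at hab
    rw [SimpleGraph.fromRel_adj] at hab
    rcases hab.2 with h | h
    · exact hrel a b h
    · exact (hrel b a h).symm
  refine ⟨⟨⟨φ, hhom⟩, ?_⟩⟩
  intro a b hab
  change φ a = φ b at hab
  rcases a with a | a | a <;> rcases b with b | b | b
  · rfl
  · exact absurd hab (hxy b).ne
  · exact absurd hab.symm (hxz b)
  · exact absurd hab.symm (hxy a).ne
  · rw [hy hab]
  · exact absurd hab.symm (hzy b a)
  · exact absurd hab (hxz a)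
  · exact absurd hab (hzy a b)
  · rw [hz hab]

/-- The vertices of a copy of `H_k`. -/
lemma of_contained {k : ℕ} (h : HG k ⊑ G) :
    ∃ (x : V) (y : Fin k → V) (z : Pr k → V),
      Function.Injective y ∧ Function.Injective z ∧ (∀ i, G.Adj x (y i)) ∧
      (∀ (p : Pr k) (i : Fin k), i ∈ p.1 → G.Adj (y i) (z p)) ∧ (∀ p, z p ≠ x) ∧
      (∀ p i, z p ≠ y i) := by
  obtain ⟨⟨φ, hφ⟩⟩ := h
  refine ⟨φ (Sum.inl ()), fun i => φ (Sum.inr (Sum.inl i)), fun p => φ (Sum.inr (Sum.inr p)),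
    ?_, ?_, ?_, ?_, ?_, ?_⟩
  · intro i j hij
    simpa using hφ hij
  · intro i j hij
    simpa using hφ hij
  · intro i
    exact φ.map_adj (HG_adj_x_y i)
  · intro p i hip
    exact φ.map_adj (HG_adj_y_z i p hip)
  · intro p hp
    have := hφ hp
    simp at this
  · intro p i hp
    have := hφ hp
    simp at this

end Pool.Agent.H42.BD
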