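import Mathlib
import Pool.Agent.H42.BD.Basic

/-!
# Lower bound: blow-ups of a C4-free graph
-/

set_option autoImplicit false

namespace Pool.Agent.H42.BD

open SimpleGraph Finset

/-- The blow-up by `t` of the graph on `F_p^2` in which `(a, b)` and `(c, d)` are joined when
`b + d = a c`. -/
def BG (p t : ℕ) : SimpleGraph ((ZMod p × ZMod p) × Fin t) where
  Adj u v := u.1.2 + v.1.2 = u.1.1 * v.1.1 ∧ u.1 ≠ v.1
  symm := ⟨fun u v h => ⟨by rw [add_comm, mul_comm]; exact h.1, h.2.symm⟩⟩
  loopless := ⟨fun u h => h.2 rfl⟩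

instance (p t : ℕ) : DecidableRel (BG p t).Adj := fun u v => by
  unfold BG
  infer_instance

/-- Two different base points have at most one common neighbour. -/
lemma base_unique {p t : ℕ} [Fact p.Prime] {u v x z : (ZMod p × ZMod p) × Fin t}
    (huv : u.1 ≠ v.1) (h1 : (BG p t).Adj u x) (h2 : (BG p t).Adj v x)
    (h3 : (BG p t).Adj u z) (h4 : (BG p t).Adj v z) : x.1 = z.1 := by
  have e1 := h1.1
  have e2 := h2.1
  have e3 := h3.1
  have e4 := h4.1
  have hne : u.1.1 ≠ v.1.1 := by
    intro h
    apply huv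
    refine Prod.ext h ?_
    have : u.1.2 - v.1.2 = 0 := by linear_combination e1 - e2 + x.1.1 * h
    exact sub_eq_zero.mp this
  have hc : x.1.1 = z.1.1 := by
    have h5 : (u.1.1 - v.1.1) * (x.1.1 - z.1.1) = 0 := by
      linear_combination -(e1 - e2) + (e3 - e4)
    rcases mul_eq_zero.mp h5 with h | h
    · exact absurd (sub_eq_zero.mp h) hne
    · exact sub_eq_zero.mp h
  refine Prod.ext hc ?_
  linear_combination e1 - e3 + u.1.1 * hc

/-- The number of cross pairs: a function on `Fin k` which is not constant has at least `k - 1`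
pairs with different values. -/
lemma cross_pairs {k : ℕ} {α : Type*} [DecidableEq α] (b : Fin k → α) (i0 j0 : Fin k)
    (h0 : b i0 ≠ b j0) :
    k - 1 ≤ (univ.filter (fun p : Pr k => ∃ i ∈ p.1, ∃ j ∈ p.1, b i ≠ b j)).card := by
  classical
  -- every `l` other than `i0` gives a cross pair: `{i0, l}` if `b l ≠ b i0`, else `{j0, l}`
  let g : Fin k → Finset (Fin k) := fun l => if b l = b i0 then {j0, l} else {i0, l}
  have hne : ∀ l, l ≠ i0 → (g l).card = 2 := by
    intro l hl
    by_cases h : b l = b i0
    · have : g l = {j0, l} := by simp [g, h]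
      rw [this]
      refine Finset.card_pair ?_
      intro h'
      rw [← h'] at h
      exact h0 h.symm
    · have : g l = {i0, l} := by simp [g, h]
      rw [this]
      exact Finset.card_pair (Ne.symm hl)
  have hinj : Set.InjOn g ((univ.erase i0 : Finset (Fin k)) : Set (Fin k)) := by
    intro l hl m hm hlm
    have hl' : l ≠ i0 := by simpa using hl
    have hm' : m ≠ i0 := by simpa using hm
    by_cases h1 : b l = b i0 <;> by_cases h2 : b m = b i0
    · have e1 : g l = {j0, l} := by simp [g, h1]
      have e2 : g m = {j0, m} := by simp [g, h2]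
      rw [e1, e2] at hlm
      have : l ∈ ({j0, m} : Finset (Fin k)) := by rw [← hlm]; simp
      rcases Finset.mem_insert.mp this with h | h
      · rw [h] at h1
        exact absurd h1.symm h0
      · exact Finset.mem_singleton.mp h
    · have e1 : g l = {j0, l} := by simp [g, h1]
      have e2 : g m = {i0, m} := by simp [g, h2]
      rw [e1, e2] at hlm
      have : i0 ∈ ({j0, l} : Finset (Fin k)) := by rw [hlm]; simp
      rcases Finset.mem_insert.mp this with h | h
      · rw [h] at h0
        exact absurd rfl h0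
      · exact absurd (Finset.mem_singleton.mp h).symm hl'
    · have e1 : g l = {i0, l} := by simp [g, h1]
      have e2 : g m = {j0, m} := by simp [g, h2]
      rw [e1, e2] at hlm
      have : i0 ∈ ({j0, m} : Finset (Fin k)) := by rw [← hlm]; simp
      rcases Finset.mem_insert.mp this with h | h
      · rw [h] at h0
        exact absurd rfl h0
      · exact absurd (Finset.mem_singleton.mp h).symm hm'
    · have e1 : g l = {i0, l} := by simp [g, h1]
      have e2 : g m = {i0, m} := by simp [g, h2]
      rw [e1, e2] at hlm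
      have : l ∈ ({i0, m} : Finset (Fin k)) := by rw [← hlm]; simp
      rcases Finset.mem_insert.mp this with h | h
      · exact absurd h hl'
      · exact Finset.mem_singleton.mp h
  have hcard : ((univ.erase i0 : Finset (Fin k)).image g).card = k - 1 := by
    rw [Finset.card_image_of_injOn hinj, Finset.card_erase_of_mem (mem_univ _), Finset.card_univ,
      Fintype.card_fin]
  rw [← hcard, ← Finset.card_map (Function.Embedding.subtype _) (s := univ.filter
    (fun p : Pr k => ∃ i ∈ p.1, ∃ j ∈ p.1, b i ≠ b j))]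
  refine Finset.card_le_card ?_
  intro q hq
  obtain ⟨l, hl, rfl⟩ := Finset.mem_image.mp hq
  have hl' : l ≠ i0 := by simpa using hl
  rw [Finset.mem_map]
  refine ⟨⟨g l, hne l hl'⟩, ?_, rfl⟩
  rw [Finset.mem_filter]
  refine ⟨mem_univ _, ?_⟩
  by_cases h : b l = b i0
  · have e : g l = {j0, l} := by simp [g, h]
    refine ⟨l, ?_, j0, ?_, ?_⟩
    · change l ∈ g l
      rw [e]; simp
    · change j0 ∈ g l
      rw [e]; simp
    · rw [h]; exact h0
  · have e : g l = {i0, l} := by simp [g, h]
    refine ⟨l, ?_, i0, ?_, h⟩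
    · change l ∈ g l
      rw [e]; simp
    · change i0 ∈ g l
      rw [e]; simp

/-- The blow-up by `k - 1` contains no `H_k`. -/
lemma BG_free {p k : ℕ} [Fact p.Prime] (hk : 2 ≤ k) : (HG k).Free (BG p (k - 1)) := by
  classical
  intro h
  obtain ⟨x, y, z, hy, hz, hxy, hyz, hxz, hzy⟩ := of_contained h
  -- the leaves are not all over the same base point
  have hnc : ∃ i j : Fin k, (y i).1 ≠ (y j).1 := by
    by_contra hcon
    push Not at hcon
    have hinj : Function.Injective (fun i => (y i).2) := by
      intro i j hij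
      exact hy (Prod.ext (hcon i j) hij)
    have := Fintype.card_le_of_injective _ hinj
    rw [Fintype.card_fin, Fintype.card_fin] at this
    omega
  obtain ⟨i0, j0, h0⟩ := hnc
  have hcp := cross_pairs (fun i => (y i).1) i0 j0 h0
  set S := univ.filter (fun q : Pr k => ∃ i ∈ q.1, ∃ j ∈ q.1, (y i).1 ≠ (y j).1) with hS
  -- all `z_q` for cross pairs `q` lie over the base point of `x`
  have hbase : ∀ q ∈ S, (z q).1 = x.1 := by
    intro q hq
    rw [hS, Finset.mem_filter] at hq
    obtain ⟨-, i, hi, j, hj, hij⟩ := hq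
    exact base_unique hij (hyz q i hi) (hyz q j hj) (hxy i).symm (hxy j).symm
  -- an injection of `S ∪ {x}` into `Fin (k - 1)`
  have hinj : Set.InjOn (fun q => (z q).2) (S : Set (Pr k)) := by
    intro q hq r hr hqr
    refine hz (Prod.ext ?_ hqr)
    rw [hbase q hq, hbase r hr]
  have himg : (S.image (fun q => (z q).2)) ⊆ (univ.erase x.2 : Finset (Fin (k - 1))) := by
    intro a ha
    obtain ⟨q, hq, rfl⟩ := Finset.mem_image.mp ha
    refine Finset.mem_erase.mpr ⟨?_, mem_univ _⟩
    intro hc
    exact hxz q (Prod.ext (hbase q hq) hc)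
  have h1 := Finset.card_le_card himg
  rw [Finset.card_image_of_injOn hinj, Finset.card_erase_of_mem (mem_univ _), Finset.card_univ,
    Fintype.card_fin] at h1
  omega

/-- The number of edges of the blow-up. -/
lemma BG_edges (p t : ℕ) [hp : Fact p.Prime] :
    t ^ 2 * p ^ 2 * (p - 1) ≤ 2 * (BG p t).edgeFinset.card := by
  classical
  rw [← SimpleGraph.sum_degrees_eq_twice_card_edges]
  have hdeg : ∀ v : (ZMod p × ZMod p) × Fin t, t * (p - 1) ≤ (BG p t).degree v := by
    intro v
    rw [← SimpleGraph.card_neighborFinset_eq_degree]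
    -- neighbours `((c, v.1.1 * c - v.1.2), j)` with `c ≠ v.1.1`
    let g : ZMod p × Fin t → (ZMod p × ZMod p) × Fin t := fun q =>
      ((q.1, v.1.1 * q.1 - v.1.2), q.2)
    have hg : Function.Injective g := by
      intro q r hqr
      have h1 : q.1 = r.1 := congrArg (fun w => w.1.1) hqr
      have h2 : q.2 = r.2 := congrArg (fun w => w.2) hqr
      exact Prod.ext h1 h2
    have hsub : ((univ.erase v.1.1 : Finset (ZMod p)) ×ˢ (univ : Finset (Fin t))).image g ⊆
        (BG p t).neighborFinset v := by
      intro w hw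
      obtain ⟨q, hq, rfl⟩ := Finset.mem_image.mp hw
      rw [Finset.mem_product] at hq
      rw [SimpleGraph.mem_neighborFinset]
      refine ⟨?_, ?_⟩
      · change v.1.2 + (v.1.1 * q.1 - v.1.2) = v.1.1 * q.1
        ring
      · intro hc
        have : v.1.1 = q.1 := congrArg (fun w => w.1) hc
        exact (Finset.mem_erase.mp hq.1).1 this.symm
    have h1 := Finset.card_le_card hsub
    rw [Finset.card_image_of_injective _ hg, Finset.card_product,
      Finset.card_erase_of_mem (mem_univ _), Finset.card_univ, Finset.card_univ, ZMod.card,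
      Fintype.card_fin] at h1
    rw [mul_comm]
    exact h1
  have hsum := Finset.sum_le_sum (fun v (_ : v ∈ (univ : Finset ((ZMod p × ZMod p) × Fin t))) =>
    hdeg v)
  rw [Finset.sum_const, Finset.card_univ, Fintype.card_prod, Fintype.card_prod, ZMod.card,
    Fintype.card_fin, smul_eq_mul] at hsum
  refine le_trans (le_of_eq ?_) hsum
  ring

/-- The lower bound for the numbers `(k - 1) p ^ 2`. -/
lemma fT_lower {p k : ℕ} [hp : Fact p.Prime] (hk : 2 ≤ k) :
    ((k - 1 : ℕ) : ℝ) ^ 2 * (p : ℝ) ^ 2 * ((p : ℝ) - 1) / 2 + 1 ≤ fT ((k - 1) * p ^ 2) k := by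
  have h1 := SimpleGraph.card_edgeFinset_le_extremalNumber (BG_free (p := p) hk)
  have hc : Fintype.card ((ZMod p × ZMod p) × Fin (k - 1)) = (k - 1) * p ^ 2 := by
    rw [Fintype.card_prod, Fintype.card_prod, ZMod.card, Fintype.card_fin]
    ring
  rw [hc] at h1
  have h2 := BG_edges p (k - 1)
  have h3 : (k - 1) ^ 2 * p ^ 2 * (p - 1) ≤ 2 * extremalNumber ((k - 1) * p ^ 2) (HG k) :=
    le_trans h2 (by omega)
  have h4 : ((k - 1 : ℕ) : ℝ) ^ 2 * (p : ℝ) ^ 2 * ((p : ℝ) - 1) ≤
      2 * (extremalNumber ((k - 1) * p ^ 2) (HG k) : ℝ) := by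
    have h5 : (((k - 1) ^ 2 * p ^ 2 * (p - 1) : ℕ) : ℝ) ≤
        ((2 * extremalNumber ((k - 1) * p ^ 2) (HG k) : ℕ) : ℝ) := by exact_mod_cast h3
    push_cast [Nat.cast_sub hp.out.one_le] at h5
    exact h5
  unfold fT
  linarith

end Pool.Agent.H42.BD
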