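import Mathlib
import Pool.Agent.H42.BD.Basic

/-!
# The local inequality for `k = 3`
-/

set_option autoImplicit false

namespace Pool.Agent.H42.BD

open SimpleGraph Finset
open scoped Classical

set_option linter.unusedSectionVars false

variable {V : Type*} [Fintype V] {G : SimpleGraph V}

/-- The common neighbours of two vertices. -/
noncomputable def cn (G : SimpleGraph V) (u v : V) : Finset V :=
  univ.filter (fun z => G.Adj u z ∧ G.Adj v z)

lemma mem_cn {u v z : V} : z ∈ cn G u v ↔ G.Adj u z ∧ G.Adj v z := by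
  simp [cn]

lemma cn_comm (u v : V) : cn G u v = cn G v u := by
  ext z
  rw [mem_cn, mem_cn, and_comm]

/-- The weight `1 / codegree`. -/
noncomputable def wt (G : SimpleGraph V) (u v : V) : ℝ := 1 / ((cn G u v).card : ℝ)

lemma wt_comm (u v : V) : wt G u v = wt G v u := by
  unfold wt
  rw [cn_comm]

lemma wt_nonneg (u v : V) : 0 ≤ wt G u v := by
  unfold wt
  positivity

/-- The pairs of three indices. -/
lemma pr3_cases (p : Pr 3) : p.1 = {0, 1} ∨ p.1 = {0, 2} ∨ p.1 = {1, 2} := by
  revert p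
  decide

/-- A copy of `H_3` from seven vertices. -/
lemma H3_of (x y0 y1 y2 a b c : V) (h01 : y0 ≠ y1) (h02 : y0 ≠ y2) (h12 : y1 ≠ y2)
    (hx0 : G.Adj x y0) (hx1 : G.Adj x y1) (hx2 : G.Adj x y2)
    (ha0 : G.Adj y0 a) (ha1 : G.Adj y1 a) (hb0 : G.Adj y0 b) (hb2 : G.Adj y2 b)
    (hc1 : G.Adj y1 c) (hc2 : G.Adj y2 c) (hax : a ≠ x) (hbx : b ≠ x) (hcx : c ≠ x)
    (ha2 : a ≠ y2) (hb1 : b ≠ y1) (hc0 : c ≠ y0) (hab : a ≠ b) (hac : a ≠ c) (hbc : b ≠ c) :
    HG 3 ⊑ G := by
  let z : Pr 3 → V := fun p => if p.1 = {0, 1} then a else if p.1 = {0, 2} then b else c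
  have hz1 : ∀ p : Pr 3, p.1 = {0, 1} → z p = a := by
    intro p hp
    simp [z, hp]
  have hz2 : ∀ p : Pr 3, p.1 = {0, 2} → z p = b := by
    intro p hp
    have : ¬ (({0, 2} : Finset (Fin 3)) = {0, 1}) := by decide
    simp [z, hp, this]
  have hz3 : ∀ p : Pr 3, p.1 = {1, 2} → z p = c := by
    intro p hp
    have h1 : ¬ (({1, 2} : Finset (Fin 3)) = {0, 1}) := by decide
    have h2 : ¬ (({1, 2} : Finset (Fin 3)) = {0, 2}) := by decide
    simp [z, hp, h1, h2]
  refine contained_of x ![y0, y1, y2] z ?_ ?_ ?_ ?_ ?_ ?_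
  · intro i j hij
    fin_cases i <;> fin_cases j <;> simp_all
  · intro p q hpq
    rcases pr3_cases p with hp | hp | hp <;> rcases pr3_cases q with hq | hq | hq
    · exact Subtype.ext (hp.trans hq.symm)
    · rw [hz1 p hp, hz2 q hq] at hpq; exact absurd hpq hab
    · rw [hz1 p hp, hz3 q hq] at hpq; exact absurd hpq hac
    · rw [hz2 p hp, hz1 q hq] at hpq; exact absurd hpq.symm hab
    · exact Subtype.ext (hp.trans hq.symm)
    · rw [hz2 p hp, hz3 q hq] at hpq; exact absurd hpq hbc
    · rw [hz3 p hp, hz1 q hq] at hpq; exact absurd hpq.symm hac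
    · rw [hz3 p hp, hz2 q hq] at hpq; exact absurd hpq.symm hbc
    · exact Subtype.ext (hp.trans hq.symm)
  · intro i
    fin_cases i
    · exact hx0
    · exact hx1
    · exact hx2
  · intro p i hi
    rcases pr3_cases p with hp | hp | hp
    · rw [hz1 p hp]
      rw [hp] at hi
      fin_cases i
      · exact ha0
      · exact ha1
      · simp at hi
    · rw [hz2 p hp]
      rw [hp] at hi
      fin_cases i
      · exact hb0
      · simp at hi
      · exact hb2
    · rw [hz3 p hp]
      rw [hp] at hi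
      fin_cases i
      · simp at hi
      · exact hc1
      · exact hc2
  · intro p
    rcases pr3_cases p with hp | hp | hp
    · rw [hz1 p hp]; exact hax
    · rw [hz2 p hp]; exact hbx
    · rw [hz3 p hp]; exact hcx
  · intro p i
    rcases pr3_cases p with hp | hp | hp
    · rw [hz1 p hp]
      fin_cases i
      · exact ha0.ne'
      · exact ha1.ne'
      · exact ha2
    · rw [hz2 p hp]
      fin_cases i
      · exact hb0.ne'
      · exact hb1
      · exact hb2.ne'
    · rw [hz3 p hp]
      fin_cases i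
      · exact hc0
      · exact hc1.ne'
      · exact hc2.ne'

/-- In an `H_3`-free graph three vertices have at most three common neighbours. -/
lemma three_common (hG : (HG 3).Free G) {u v w : V} (huv : u ≠ v) (huw : u ≠ w) (hvw : v ≠ w)
    (S : Finset V) (hS : ∀ s ∈ S, G.Adj u s ∧ G.Adj v s ∧ G.Adj w s) : S.card ≤ 3 := by
  by_contra hcon
  push Not at hcon
  obtain ⟨T, hT, hTc⟩ := Finset.exists_subset_card_eq (show 4 ≤ S.card by omega)
  obtain ⟨s, T3, hs, rfl, hT3⟩ := Finset.card_eq_succ.mp hTc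
  obtain ⟨a, b, c, hab, hac, hbc, rfl⟩ := Finset.card_eq_three.mp hT3
  have hs' := hS s (hT (by simp))
  have ha' := hS a (hT (by simp))
  have hb' := hS b (hT (by simp))
  have hc' := hS c (hT (by simp))
  have has : a ≠ s := by rintro rfl; simp at hs
  have hbs : b ≠ s := by rintro rfl; simp at hs
  have hcs : c ≠ s := by rintro rfl; simp at hs
  exact hG (H3_of s u v w a b c huv huw hvw hs'.1.symm hs'.2.1.symm hs'.2.2.symm
    ha'.1 ha'.2.1 hb'.1 hb'.2.2 hc'.2.1 hc'.2.2 has hbs hcs ha'.2.2.ne' hb'.2.1.ne' hc'.1.ne'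
    hab hac hbc)

/-- The key alternative: if `y1, y2` are non-adjacent neighbours of `x` with at least three common
neighbours then every other neighbour `y` of `x`, which is not adjacent to both, has
`1/c(y,y1) + 1/c(y,y2) >= 1` or is adjacent to all common neighbours of `y1` and `y2`, which are then
exactly three. -/
lemma key_alt (hG : (HG 3).Free G) {x y1 y2 y : V} (hx1 : G.Adj x y1) (hx2 : G.Adj x y2)
    (hx : G.Adj x y) (h12 : y1 ≠ y2) (h1 : y ≠ y1) (h2 : y ≠ y2) (hna : ¬ G.Adj y1 y2)
    (hc : 3 ≤ (cn G y1 y2).card) (hnb : ¬ (G.Adj y1 y ∧ G.Adj y2 y)) :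
    1 ≤ wt G y y1 + wt G y y2 ∨
      ((cn G y1 y2).card = 3 ∧ ∀ z ∈ cn G y1 y2, G.Adj y z) := by
  set A := (cn G y1 y2).erase x with hA
  set B := (cn G y y1).erase x with hB
  set C := (cn G y y2).erase x with hC
  have hxA : x ∈ cn G y1 y2 := mem_cn.mpr ⟨hx1.symm, hx2.symm⟩
  have hxB : x ∈ cn G y y1 := mem_cn.mpr ⟨hx.symm, hx1.symm⟩
  have hxC : x ∈ cn G y y2 := mem_cn.mpr ⟨hx.symm, hx2.symm⟩
  have cA : A.card + 1 = (cn G y1 y2).card := Finset.card_erase_add_one hxA
  have cB : B.card + 1 = (cn G y y1).card := Finset.card_erase_add_one hxB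
  have cC : C.card + 1 = (cn G y y2).card := Finset.card_erase_add_one hxC
  -- no system of distinct representatives
  have hsdr : ∀ a ∈ A, ∀ b ∈ B, ∀ c ∈ C, a ≠ b → a ≠ c → b ≠ c → False := by
    intro a ha b hb c hc' hab hac hbc
    rw [hA, Finset.mem_erase, mem_cn] at ha
    rw [hB, Finset.mem_erase, mem_cn] at hb
    rw [hC, Finset.mem_erase, mem_cn] at hc'
    refine hG (H3_of x y1 y2 y a b c h12 h1.symm h2.symm hx1 hx2 hx ha.2.1 ha.2.2 hb.2.2 hb.2.1
      hc'.2.2 hc'.2.1 ha.1 hb.1 hc'.1 ?_ ?_ ?_ hab hac hbc)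
    · rintro rfl
      exact hnb ⟨ha.2.1, ha.2.2⟩
    · rintro rfl
      exact hna hb.2.2
    · rintro rfl
      exact hna hc'.2.2.symm
  -- a simple counting lemma
  have two : ∀ (S : Finset V) (c : V), 2 ≤ S.card → ∃ a ∈ S, a ≠ c := by
    intro S c hS
    have : 0 < (S.erase c).card := by
      have := Finset.pred_card_le_card_erase (s := S) (a := c)
      omega
    obtain ⟨a, ha⟩ := Finset.card_pos.mp this
    exact ⟨a, (Finset.mem_erase.mp ha).2, (Finset.mem_erase.mp ha).1⟩
  -- the structure when one of the sets `B`, `C` has at least two elements and the other one is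
  -- nonempty
  have main : ∀ (B' C' : Finset V), 2 ≤ B'.card → 1 ≤ C'.card →
      (∀ a ∈ A, ∀ b ∈ B', ∀ c ∈ C', a ≠ b → a ≠ c → b ≠ c → False) →
      (∀ b ∈ B', G.Adj y b) → A.card = 2 ∧ ∀ z ∈ A, G.Adj y z := by
    intro B' C' hB' hC' hs hyB
    obtain ⟨c, hc'⟩ := Finset.card_pos.mp (show 0 < C'.card by omega)
    have hA2 : 2 ≤ A.card := by omega
    obtain ⟨e, he, hec⟩ := two A c hA2
    -- every element of `A` other than `c` equals every element of `B'` other than `c`
    have heq : ∀ a ∈ A, a ≠ c → ∀ b ∈ B', b ≠ c → a = b := by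
      intro a ha hac b hb hbc
      by_contra hab
      exact hs a ha b hb c hc' hab hac hbc
    obtain ⟨b, hb, hbc⟩ := two B' c hB'
    have hAsub : A ⊆ {c, e} := by
      intro a ha
      by_cases hac : a = c
      · simp [hac]
      · have h3 := heq a ha hac b hb hbc
        have h4 := heq e he hec b hb hbc
        simp [h3, h4]
    have hBsub : B' ⊆ {c, e} := by
      intro a ha
      by_cases hac : a = c
      · simp [hac]
      · have h3 := heq e he hec a ha hac
        simp [h3]
    have hce : ({c, e} : Finset V).card = 2 := Finset.card_pair hec.symm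
    have hAeq : A = {c, e} := Finset.eq_of_subset_of_card_le hAsub (by omega)
    have hBeq : B' = {c, e} := Finset.eq_of_subset_of_card_le hBsub (by omega)
    refine ⟨by rw [hAeq, hce], ?_⟩
    intro z hz
    apply hyB
    rw [hBeq, ← hAeq]
    exact hz
  have fin : (A.card = 2 ∧ ∀ z ∈ A, G.Adj y z) →
      ((cn G y1 y2).card = 3 ∧ ∀ z ∈ cn G y1 y2, G.Adj y z) := by
    rintro ⟨h3, h4⟩
    refine ⟨by omega, ?_⟩
    intro z hz
    by_cases hzx : z = x
    · rw [hzx]; exact hx.symm
    · exact h4 z (Finset.mem_erase.mpr ⟨hzx, hz⟩)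
  by_cases hB0 : B.card = 0
  · left
    have : wt G y y1 = 1 := by
      unfold wt
      rw [← cB, hB0]
      norm_num
    have := wt_nonneg (G := G) y y2
    linarith
  by_cases hC0 : C.card = 0
  · left
    have : wt G y y2 = 1 := by
      unfold wt
      rw [← cC, hC0]
      norm_num
    have := wt_nonneg (G := G) y y1
    linarith
  by_cases hB2 : 2 ≤ B.card
  · right
    apply fin
    refine main B C hB2 (by omega) hsdr ?_
    intro b hb
    rw [hB, Finset.mem_erase, mem_cn] at hb
    exact hb.2.1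
  by_cases hC2 : 2 ≤ C.card
  · right
    apply fin
    refine main C B hC2 (by omega) ?_ ?_
    · intro a ha b hb c hc' hab hac hbc
      exact hsdr a ha c hc' b hb hac hab hbc.symm
    · intro b hb
      rw [hC, Finset.mem_erase, mem_cn] at hb
      exact hb.2.1
  · left
    have hB1 : (cn G y y1).card = 2 := by omega
    have hC1 : (cn G y y2).card = 2 := by omega
    unfold wt
    rw [hB1, hC1]
    norm_num

/-- The modified weight. -/
noncomputable def wd (G : SimpleGraph V) (u v : V) : ℝ :=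
  if u = v then 1 else wt G u v + (if G.Adj u v then 1 / 2 else 0)

lemma wd_nonneg (u v : V) : 0 ≤ wd G u v := by
  unfold wd
  have := wt_nonneg (G := G) u v
  split_ifs <;> linarith

lemma wd_comm (u v : V) : wd G u v = wd G v u := by
  unfold wd
  rw [wt_comm]
  simp only [eq_comm, G.adj_comm]

/-- The number of exceptions for a pair. -/
lemma exceptions (hG : (HG 3).Free G) {x y1 y2 : V} (hx1 : G.Adj x y1) (hx2 : G.Adj x y2)
    (h12 : y1 ≠ y2) (hna : ¬ G.Adj y1 y2)
    (hc : 3 ≤ (cn G y1 y2).card) (D : Finset V) (hD : ∀ y ∈ D, G.Adj x y) (h1 : y1 ∉ D)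
    (h2 : y2 ∉ D) :
    (D.card : ℝ) - 4 ≤ ∑ y ∈ D, (wd G y y1 + wd G y y2) := by
  -- the exceptional vertices
  set E1 := D.filter (fun y => G.Adj y1 y ∧ G.Adj y2 y) with hE1
  set E2 := D.filter (fun y => (cn G y1 y2).card = 3 ∧ ∀ z ∈ cn G y1 y2, G.Adj y z) with hE2
  have cE1 : E1.card ≤ 3 := by
    refine three_common hG (hx1.ne) (hx2.ne) h12 E1 ?_
    intro s hs
    rw [hE1, Finset.mem_filter] at hs
    exact ⟨hD s hs.1, hs.2.1, hs.2.2⟩
  have cE2 : E2.card ≤ 1 := by
    by_cases h3 : (cn G y1 y2).card = 3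
    · obtain ⟨a, b, c, hab, hac, hbc, hcn⟩ := Finset.card_eq_three.mp h3
      have h5 : (insert y1 (insert y2 E2)).card ≤ 3 := by
        refine three_common hG hab hac hbc _ ?_
        intro s hs
        have ha : a ∈ cn G y1 y2 := by rw [hcn]; simp
        have hb : b ∈ cn G y1 y2 := by rw [hcn]; simp
        have hc' : c ∈ cn G y1 y2 := by rw [hcn]; simp
        rcases Finset.mem_insert.mp hs with rfl | hs
        · exact ⟨(mem_cn.mp ha).1.symm, (mem_cn.mp hb).1.symm, (mem_cn.mp hc').1.symm⟩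
        rcases Finset.mem_insert.mp hs with rfl | hs
        · exact ⟨(mem_cn.mp ha).2.symm, (mem_cn.mp hb).2.symm, (mem_cn.mp hc').2.symm⟩
        rw [hE2, Finset.mem_filter] at hs
        exact ⟨(hs.2.2 a ha).symm, (hs.2.2 b hb).symm, (hs.2.2 c hc').symm⟩
      have h6 : y2 ∉ E2 := fun h => h2 (Finset.mem_filter.mp h).1
      have h7 : y1 ∉ insert y2 E2 := by
        intro h
        rcases Finset.mem_insert.mp h with h | h
        · exact h12 h
        · exact h1 (Finset.mem_filter.mp h).1
      rw [Finset.card_insert_of_notMem h7, Finset.card_insert_of_notMem h6] at h5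
      omega
    · have : E2 = ∅ := by
        rw [hE2, Finset.filter_eq_empty_iff]
        intro y _ h
        exact h3 h.1
      rw [this]
      simp
  have hsub : E1 ∪ E2 ⊆ D := by
    intro y hy
    rcases Finset.mem_union.mp hy with h | h
    · exact (Finset.mem_filter.mp h).1
    · exact (Finset.mem_filter.mp h).1
  have hge : ∀ y ∈ D \ (E1 ∪ E2), (1 : ℝ) ≤ wd G y y1 + wd G y y2 := by
    intro y hy
    rw [Finset.mem_sdiff, Finset.mem_union, not_or] at hy
    obtain ⟨hyD, hy1, hy2⟩ := hy
    have hyy1 : y ≠ y1 := by rintro rfl; exact h1 hyD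
    have hyy2 : y ≠ y2 := by rintro rfl; exact h2 hyD
    have hnb : ¬ (G.Adj y1 y ∧ G.Adj y2 y) := fun h => hy1 (Finset.mem_filter.mpr ⟨hyD, h⟩)
    have hle1 : wt G y y1 ≤ wd G y y1 := by
      unfold wd
      rw [if_neg hyy1]
      split_ifs <;> linarith
    have hle2 : wt G y y2 ≤ wd G y y2 := by
      unfold wd
      rw [if_neg hyy2]
      split_ifs <;> linarith
    rcases key_alt hG hx1 hx2 (hD y hyD) h12 hyy1 hyy2 hna hc hnb with h | h
    · linarith
    · exact absurd (Finset.mem_filter.mpr ⟨hyD, h⟩) hy2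
  have h8 : ((D \ (E1 ∪ E2)).card : ℝ) ≤ ∑ y ∈ D \ (E1 ∪ E2), (wd G y y1 + wd G y y2) := by
    have := Finset.card_nsmul_le_sum (D \ (E1 ∪ E2)) (fun y => wd G y y1 + wd G y y2) 1 hge
    simpa using this
  have h9 : ∑ y ∈ D \ (E1 ∪ E2), (wd G y y1 + wd G y y2) ≤ ∑ y ∈ D, (wd G y y1 + wd G y y2) := by
    refine Finset.sum_le_sum_of_subset_of_nonneg Finset.sdiff_subset ?_
    intro y _ _
    have := wd_nonneg (G := G) y y1
    have := wd_nonneg (G := G) y y2
    linarith
  have h10 : (D \ (E1 ∪ E2)).card + 4 ≥ D.card := by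
    have h11 := Finset.card_sdiff_add_card_eq_card hsub
    have h12 := Finset.card_union_le E1 E2
    omega
  have h13 : ((D \ (E1 ∪ E2)).card : ℝ) + 4 ≥ (D.card : ℝ) := by exact_mod_cast h10
  linarith

/-- The local inequality: the modified weights of a set of neighbours. -/
lemma local_ineq (hG : (HG 3).Free G) (x : V) :
    ∀ (n : ℕ) (D : Finset V), D.card = n → (∀ y ∈ D, G.Adj x y) →
      (D.card : ℝ) ^ 2 / 2 - 4 * (D.card : ℝ) ≤ ∑ y ∈ D, ∑ y' ∈ D, wd G y y' := by
  intro n
  induction n using Nat.strong_induction_on with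
  | _ n ih =>
    intro D hDn hD
    by_cases hex : ∃ y1 ∈ D, ∃ y2 ∈ D, y1 ≠ y2 ∧ ¬ G.Adj y1 y2 ∧ 3 ≤ (cn G y1 y2).card
    · obtain ⟨y1, hy1, y2, hy2, h12, hna, hc⟩ := hex
      set D' := (D.erase y1).erase y2 with hD'
      have h1 : y1 ∉ D' := by simp [hD', h12]
      have h2 : y2 ∉ D' := by simp [hD']
      have hy2' : y2 ∈ D.erase y1 := Finset.mem_erase.mpr ⟨h12.symm, hy2⟩
      have hcard : D'.card + 2 = D.card := by
        have e1 : D'.card + 1 = (D.erase y1).card := Finset.card_erase_add_one hy2'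
        have e2 : (D.erase y1).card + 1 = D.card := Finset.card_erase_add_one hy1
        omega
      have hD'D : ∀ y ∈ D', G.Adj x y := fun y hy =>
        hD y (Finset.mem_of_mem_erase (Finset.mem_of_mem_erase hy))
      have hi := ih D'.card (by omega) D' rfl hD'D
      have hexc := exceptions hG (hD y1 hy1) (hD y2 hy2) h12 hna hc D' hD'D h1 h2
      -- split the double sum
      have hDeq : D = insert y1 (insert y2 D') := by
        rw [hD', Finset.insert_erase hy2', Finset.insert_erase hy1]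
      have h1' : y1 ∉ insert y2 D' := by
        intro h
        rcases Finset.mem_insert.mp h with h | h
        · exact h12 h
        · exact h1 h
      have hsplit : ∀ g : V → ℝ, ∑ y ∈ D, g y = g y1 + (g y2 + ∑ y ∈ D', g y) := by
        intro g
        rw [hDeq, Finset.sum_insert h1', Finset.sum_insert h2]
      have hw11 : wd G y1 y1 = 1 := by simp [wd]
      have hw22 : wd G y2 y2 = 1 := by simp [wd]
      have hsum : ∑ y ∈ D, ∑ y' ∈ D, wd G y y' =
          (1 + (wd G y1 y2 + ∑ y ∈ D', wd G y y1)) + ((wd G y2 y1 + (1 + ∑ y ∈ D', wd G y y2)) +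
          (∑ y ∈ D', (wd G y y1 + (wd G y y2 + ∑ y' ∈ D', wd G y y')))) := by
        rw [hsplit (fun y => ∑ y' ∈ D, wd G y y')]
        have e1 : ∑ y' ∈ D, wd G y1 y' = 1 + (wd G y1 y2 + ∑ y ∈ D', wd G y y1) := by
          rw [hsplit (fun y' => wd G y1 y'), hw11]
          congr 2
          exact Finset.sum_congr rfl (fun y _ => wd_comm y1 y)
        have e2 : ∑ y' ∈ D, wd G y2 y' = wd G y2 y1 + (1 + ∑ y ∈ D', wd G y y2) := by
          rw [hsplit (fun y' => wd G y2 y'), hw22]
          congr 2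
          exact Finset.sum_congr rfl (fun y _ => wd_comm y2 y)
        have e3 : ∀ y, ∑ y' ∈ D, wd G y y' = wd G y y1 + (wd G y y2 + ∑ y' ∈ D', wd G y y') := by
          intro y
          rw [hsplit (fun y' => wd G y y')]
        rw [e1, e2]
        congr 2
        exact Finset.sum_congr rfl (fun y _ => e3 y)
      rw [hsum]
      simp only [Finset.sum_add_distrib] at hexc ⊢
      have hn12 := wd_nonneg (G := G) y1 y2
      have hn21 := wd_nonneg (G := G) y2 y1
      have hcr : (D.card : ℝ) = (D'.card : ℝ) + 2 := by exact_mod_cast hcard.symm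
      rw [hcr]
      nlinarith [hi, hexc]
    · push Not at hex
      have hge : ∀ y ∈ D, ∀ y' ∈ D, (1 / 2 : ℝ) ≤ wd G y y' := by
        intro y hy y' hy'
        unfold wd
        by_cases h : y = y'
        · rw [if_pos h]; norm_num
        · rw [if_neg h]
          by_cases ha : G.Adj y y'
          · rw [if_pos ha]
            have := wt_nonneg (G := G) y y'
            linarith
          · rw [if_neg ha]
            have h3 := hex y hy y' hy' h ha
            have h4 : 0 < (cn G y y').card :=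
              Finset.card_pos.mpr ⟨x, mem_cn.mpr ⟨(hD y hy).symm, (hD y' hy').symm⟩⟩
            unfold wt
            have h5 : ((cn G y y').card : ℝ) ≤ 2 := by exact_mod_cast (by omega)
            have h6 : (0 : ℝ) < ((cn G y y').card : ℝ) := by exact_mod_cast h4
            have := one_div_le_one_div_of_le h6 h5
            linarith
      have h7 : ∀ y ∈ D, (D.card : ℝ) / 2 ≤ ∑ y' ∈ D, wd G y y' := by
        intro y hy
        have := Finset.card_nsmul_le_sum D (fun y' => wd G y y') (1 / 2) (hge y hy)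
        rw [nsmul_eq_mul] at this
        linarith
      have h8 := Finset.card_nsmul_le_sum D (fun y => ∑ y' ∈ D, wd G y y') ((D.card : ℝ) / 2) h7
      rw [nsmul_eq_mul] at h8
      have h9 : (0 : ℝ) ≤ (D.card : ℝ) := by positivity
      nlinarith

end Pool.Agent.H42.BD
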