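import Mathlib
import Pool.Agent.H42.BD.Local3

/-!
# The global inequality for `k = 3`
-/

set_option autoImplicit false

namespace Pool.Agent.H42.BD

open SimpleGraph Finset
open scoped Classical

variable {V : Type*} [Fintype V] {G : SimpleGraph V}

/-- The neighbourhood. -/
noncomputable def nb (G : SimpleGraph V) (x : V) : Finset V := univ.filter (fun y => G.Adj x y)

lemma mem_nb {x y : V} : y ∈ nb G x ↔ G.Adj x y := by simp [nb]

lemma cn_self (x : V) : cn G x x = nb G x := by
  ext z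
  rw [mem_cn, mem_nb, and_self_iff]

/-- The number of ordered adjacent pairs in a neighbourhood. -/
noncomputable def Tx (G : SimpleGraph V) (x : V) : ℝ := ∑ y ∈ nb G x, ((cn G x y).card : ℝ)

lemma Tx_sq (hG : (HG 3).Free G) (x : V) : Tx G x ^ 2 ≤ 4 * ((nb G x).card : ℝ) ^ 3 := by
  set d : ℝ := ((nb G x).card : ℝ) with hd
  have hd0 : 0 ≤ d := by positivity
  have h1 : Tx G x ^ 2 ≤ d * ∑ y ∈ nb G x, ((cn G x y).card : ℝ) ^ 2 := by
    unfold Tx
    exact sq_sum_le_card_mul_sum_sq
  have hc : ∀ y, ((cn G x y).card : ℝ) = ∑ u ∈ nb G x, (if G.Adj y u then (1 : ℝ) else 0) := by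
    intro y
    rw [Finset.sum_ite, Finset.sum_const_zero, add_zero, Finset.sum_const, nsmul_eq_mul, mul_one]
    congr 2
    ext z
    rw [mem_cn, Finset.mem_filter, mem_nb]
  have h2 : ∑ y ∈ nb G x, ((cn G x y).card : ℝ) ^ 2 =
      ∑ u ∈ nb G x, ∑ v ∈ nb G x, ∑ y ∈ nb G x,
        (if G.Adj y u then (1 : ℝ) else 0) * (if G.Adj y v then (1 : ℝ) else 0) := by
    have e1 : ∀ y, ((cn G x y).card : ℝ) ^ 2 = ∑ u ∈ nb G x, ∑ v ∈ nb G x,
        (if G.Adj y u then (1 : ℝ) else 0) * (if G.Adj y v then (1 : ℝ) else 0) := by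
      intro y
      rw [sq, hc y, Finset.sum_mul_sum]
    rw [Finset.sum_congr rfl (fun y _ => e1 y), Finset.sum_comm]
    refine Finset.sum_congr rfl (fun u _ => ?_)
    rw [Finset.sum_comm]
  have h3 : ∀ u ∈ nb G x, ∀ v ∈ nb G x, ∑ y ∈ nb G x,
      (if G.Adj y u then (1 : ℝ) else 0) * (if G.Adj y v then (1 : ℝ) else 0) ≤
      (if u = v then d else 0) + 3 := by
    intro u hu v hv
    have e2 : ∑ y ∈ nb G x,
        (if G.Adj y u then (1 : ℝ) else 0) * (if G.Adj y v then (1 : ℝ) else 0) =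
        (((nb G x).filter (fun y => G.Adj y u ∧ G.Adj y v)).card : ℝ) := by
      rw [Finset.card_filter, Nat.cast_sum]
      refine Finset.sum_congr rfl (fun y _ => ?_)
      by_cases h1 : G.Adj y u <;> by_cases h2 : G.Adj y v <;> simp [h1, h2]
    rw [e2]
    by_cases huv : u = v
    · rw [if_pos huv]
      have : ((nb G x).filter (fun y => G.Adj y u ∧ G.Adj y v)).card ≤ (nb G x).card :=
        Finset.card_filter_le _ _
      have : (((nb G x).filter (fun y => G.Adj y u ∧ G.Adj y v)).card : ℝ) ≤ d := by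
        rw [hd]
        exact_mod_cast this
      linarith
    · rw [if_neg huv, zero_add]
      have : ((nb G x).filter (fun y => G.Adj y u ∧ G.Adj y v)).card ≤ 3 := by
        refine three_common hG (u := x) (v := u) (w := v) ?_ ?_ huv _ ?_
        · exact (mem_nb.mp hu).ne
        · exact (mem_nb.mp hv).ne
        · intro s hs
          rw [Finset.mem_filter, mem_nb] at hs
          exact ⟨hs.1, hs.2.1.symm, hs.2.2.symm⟩
      exact_mod_cast this
  have h4 : ∑ y ∈ nb G x, ((cn G x y).card : ℝ) ^ 2 ≤ 4 * d ^ 2 := by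
    rw [h2]
    refine le_trans (Finset.sum_le_sum (fun u hu => Finset.sum_le_sum (fun v hv => h3 u hu v hv))) ?_
    have e3 : ∀ u ∈ nb G x, ∑ v ∈ nb G x, ((if u = v then d else 0) + 3) = d + 3 * d := by
      intro u hu
      rw [Finset.sum_add_distrib, Finset.sum_ite_eq, if_pos hu, Finset.sum_const, nsmul_eq_mul]
      ring
    rw [Finset.sum_congr rfl e3, Finset.sum_const, nsmul_eq_mul]
    nlinarith
  nlinarith

lemma Tx_nonneg (x : V) : 0 ≤ Tx G x := by
  unfold Tx
  positivity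

lemma Tx_le (hG : (HG 3).Free G) (x : V) {η : ℝ} (hη : 0 < η) :
    Tx G x ≤ η * ((nb G x).card : ℝ) ^ 2 + ((nb G x).card : ℝ) / η := by
  set d : ℝ := ((nb G x).card : ℝ) with hd
  have hd0 : 0 ≤ d := by positivity
  have h1 := Tx_sq hG x
  rw [← hd] at h1
  have h2 : 0 ≤ η * d ^ 2 + d / η := by positivity
  have h3 : (η * d ^ 2) * (d / η) = d ^ 3 := by
    field_simp
  have h4 : Tx G x ^ 2 ≤ (η * d ^ 2 + d / η) ^ 2 := by
    nlinarith [sq_nonneg (η * d ^ 2 - d / η)]
  exact abs_le_of_sq_le_sq' h4 h2 |>.2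

/-- The sum of the local inequalities. -/
lemma global_ineq (hG : (HG 3).Free G) :
    ∑ x : V, (((nb G x).card : ℝ) ^ 2 / 2 - 4 * ((nb G x).card : ℝ)) ≤
      (Fintype.card V : ℝ) ^ 2 + ∑ x : V, ((nb G x).card : ℝ) + (∑ x : V, Tx G x) / 2 := by
  have h1 : ∑ x : V, (((nb G x).card : ℝ) ^ 2 / 2 - 4 * ((nb G x).card : ℝ)) ≤
      ∑ x : V, ∑ y ∈ nb G x, ∑ y' ∈ nb G x, wd G y y' :=
    Finset.sum_le_sum (fun x _ => local_ineq hG x _ (nb G x) rfl (fun y hy => mem_nb.mp hy))
  -- rewrite as a sum over pairs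
  have h2 : ∑ x : V, ∑ y ∈ nb G x, ∑ y' ∈ nb G x, wd G y y' =
      ∑ y : V, ∑ y' : V, ((cn G y y').card : ℝ) * wd G y y' := by
    have e1 : ∀ x : V, ∑ y ∈ nb G x, ∑ y' ∈ nb G x, wd G y y' =
        ∑ y : V, ∑ y' : V, (if G.Adj y x ∧ G.Adj y' x then wd G y y' else 0) := by
      intro x
      unfold nb
      rw [Finset.sum_filter]
      refine Finset.sum_congr rfl (fun y _ => ?_)
      by_cases h : G.Adj x y
      · rw [if_pos h, Finset.sum_filter]
        refine Finset.sum_congr rfl (fun y' _ => ?_)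
        by_cases h' : G.Adj x y'
        · rw [if_pos h', if_pos ⟨h.symm, h'.symm⟩]
        · rw [if_neg h', if_neg (fun hc => h' hc.2.symm)]
      · rw [if_neg h]
        symm
        refine Finset.sum_eq_zero (fun y' _ => ?_)
        rw [if_neg (fun hc => h hc.1.symm)]
    rw [Finset.sum_congr rfl (fun x _ => e1 x), Finset.sum_comm]
    refine Finset.sum_congr rfl (fun y _ => ?_)
    rw [Finset.sum_comm]
    refine Finset.sum_congr rfl (fun y' _ => ?_)
    rw [← Finset.sum_filter, Finset.sum_const, nsmul_eq_mul]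
    rfl
  have h3 : ∀ y y' : V, ((cn G y y').card : ℝ) * wd G y y' ≤
      1 + (if y = y' then ((nb G y).card : ℝ) else 0) +
        (if G.Adj y y' then ((cn G y y').card : ℝ) / 2 else 0) := by
    intro y y'
    have hadj0 : (0 : ℝ) ≤ (if G.Adj y y' then ((cn G y y').card : ℝ) / 2 else 0) := by
      split_ifs <;> positivity
    unfold wd
    by_cases h : y = y'
    · rw [if_pos h, if_pos h, ← h, cn_self]
      have : ¬ G.Adj y y := G.loopless.irrefl y
      rw [if_neg this]
      linarith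
    · rw [if_neg h, if_neg h]
      have hw : ((cn G y y').card : ℝ) * wt G y y' ≤ 1 := by
        unfold wt
        by_cases hc : ((cn G y y').card : ℝ) = 0
        · rw [hc]; norm_num
        · rw [mul_one_div_cancel hc]
      by_cases ha : G.Adj y y'
      · rw [if_pos ha, if_pos ha]
        nlinarith
      · rw [if_neg ha, if_neg ha]
        nlinarith
  have h4 : ∑ y : V, ∑ y' : V, ((cn G y y').card : ℝ) * wd G y y' ≤
      (Fintype.card V : ℝ) ^ 2 + ∑ x : V, ((nb G x).card : ℝ) + (∑ x : V, Tx G x) / 2 := by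
    refine le_trans (Finset.sum_le_sum (fun y _ => Finset.sum_le_sum (fun y' _ => h3 y y'))) ?_
    have e1 : ∀ y : V, ∑ y' : V, (1 + (if y = y' then ((nb G y).card : ℝ) else 0) +
        (if G.Adj y y' then ((cn G y y').card : ℝ) / 2 else 0)) =
        (Fintype.card V : ℝ) + ((nb G y).card : ℝ) + Tx G y / 2 := by
      intro y
      rw [Finset.sum_add_distrib, Finset.sum_add_distrib, Finset.sum_const, Finset.card_univ,
        nsmul_eq_mul, mul_one, Finset.sum_ite_eq, if_pos (mem_univ y)]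
      congr 1
      unfold Tx nb
      rw [Finset.sum_filter, Finset.sum_div]
      refine Finset.sum_congr rfl (fun y' _ => ?_)
      split_ifs <;> ring
    rw [Finset.sum_congr rfl (fun y _ => e1 y), Finset.sum_add_distrib, Finset.sum_add_distrib,
      Finset.sum_const, Finset.card_univ, nsmul_eq_mul, Finset.sum_div]
    nlinarith
  linarith [h1, h2.le, h4]

/-- The inequality between the sums of degrees and of squares of degrees. -/
lemma degree_ineq (hG : (HG 3).Free G) {η : ℝ} (hη : 0 < η) :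
    (1 - η) / 2 * ∑ x : V, ((nb G x).card : ℝ) ^ 2 ≤
      (Fintype.card V : ℝ) ^ 2 + (5 + 1 / (2 * η)) * ∑ x : V, ((nb G x).card : ℝ) := by
  have h1 := global_ineq hG
  have h2 : ∑ x : V, Tx G x ≤ ∑ x : V, (η * ((nb G x).card : ℝ) ^ 2 + ((nb G x).card : ℝ) / η) :=
    Finset.sum_le_sum (fun x _ => Tx_le hG x hη)
  rw [Finset.sum_sub_distrib, ← Finset.sum_div, ← Finset.mul_sum] at h1
  rw [Finset.sum_add_distrib, ← Finset.mul_sum, ← Finset.sum_div] at h2
  have h3 : (∑ x : V, ((nb G x).card : ℝ)) / η / 2 = 1 / (2 * η) * ∑ x : V, ((nb G x).card : ℝ) := by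
    field_simp
  nlinarith

/-- The edge count in terms of `nb`. -/
lemma sum_nb (G : SimpleGraph V) :
    ∑ x : V, ((nb G x).card : ℝ) = 2 * (G.edgeFinset.card : ℝ) := by
  have h := G.sum_degrees_eq_twice_card_edges
  have h2 : ∀ x : V, (nb G x).card = G.degree x := by
    intro x
    rw [← SimpleGraph.card_neighborFinset_eq_degree]
    congr 1
    ext y
    rw [mem_nb, SimpleGraph.mem_neighborFinset]
  rw [← Nat.cast_sum, Finset.sum_congr rfl (fun x _ => h2 x), h]
  push_cast
  ring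

/-- The inequality for the number of edges. -/
lemma edge_ineq (hG : (HG 3).Free G) {η : ℝ} (hη : 0 < η) (hη1 : η ≤ 1) :
    (1 - η) / 2 * (2 * (G.edgeFinset.card : ℝ)) ^ 2 ≤
      (Fintype.card V : ℝ) ^ 3 +
        (5 + 1 / (2 * η)) * (Fintype.card V : ℝ) * (2 * (G.edgeFinset.card : ℝ)) := by
  have h1 := degree_ineq hG hη
  have h2 : (∑ x : V, ((nb G x).card : ℝ)) ^ 2 ≤
      (Fintype.card V : ℝ) * ∑ x : V, ((nb G x).card : ℝ) ^ 2 := by
    have := sq_sum_le_card_mul_sum_sq (s := (univ : Finset V)) (f := fun x => ((nb G x).card : ℝ))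
    rwa [Finset.card_univ] at this
  rw [sum_nb] at h1 h2
  have hn : (0 : ℝ) ≤ (Fintype.card V : ℝ) := by positivity
  have h3 : 0 ≤ (1 - η) / 2 := by linarith
  have h4 := mul_le_mul_of_nonneg_left h2 h3
  have h5 := mul_le_mul_of_nonneg_left h1 hn
  nlinarith

end Pool.Agent.H42.BD
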