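import Mathlib
import Pool.Agent.H42.BD.Upper3
import Pool.Agent.H42.BD.Lower

/-!
# Asymptotic forms
-/

set_option autoImplicit false

namespace Pool.Agent.H42.BD

open SimpleGraph Finset Filter

lemma rpow32 (n : ℕ) : (n : ℝ) ^ ((3 : ℝ) / 2) = (Real.sqrt n) ^ 3 := by
  have hn : (0 : ℝ) ≤ (n : ℝ) := by positivity
  rw [Real.sqrt_eq_rpow, ← Real.rpow_natCast, ← Real.rpow_mul hn]
  norm_num

/-- The number of edges does not depend on the instance. -/
lemma edge_card_eq {V : Type*} (G : SimpleGraph V) (i1 i2 : Fintype G.edgeSet) :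
    (@SimpleGraph.edgeFinset V G i1).card = (@SimpleGraph.edgeFinset V G i2).card := by
  have h : i1 = i2 := Subsingleton.elim _ _
  rw [h]

/-- The upper bound for `k = 3`. -/
lemma upper_three {ε : ℝ} (hε : 0 < ε) :
    ∀ᶠ n : ℕ in atTop, fT n 3 ≤ (1 / Real.sqrt 2 + ε) * (n : ℝ) ^ ((3 : ℝ) / 2) := by
  classical
  -- the constants
  set κ : ℝ := Real.sqrt 2 + ε with hκ
  have h2 : Real.sqrt 2 ^ 2 = 2 := Real.sq_sqrt (by norm_num)
  have hs1 : 1 ≤ Real.sqrt 2 := by
    rw [show (1 : ℝ) = Real.sqrt 1 by simp]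
    exact Real.sqrt_le_sqrt (by norm_num)
  set η : ℝ := ε / (2 * (1 + ε)) with hη
  have hη0 : 0 < η := by positivity
  have hη1 : η ≤ 1 := by
    rw [hη, div_le_one (by positivity)]
    linarith
  have hmain : 1 + ε / 2 ≤ (1 - η) / 2 * κ ^ 2 := by
    have h3 : 2 * (1 + ε) ≤ κ ^ 2 := by
      rw [hκ]
      nlinarith
    have h4 : η * (1 + ε) = ε / 2 := by
      rw [hη]
      field_simp
    nlinarith
  set B : ℝ := 5 + 1 / (2 * η) with hB
  have hB0 : 0 < B := by positivity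
  -- `r` large
  have hr : ∀ᶠ n : ℕ in atTop, 2 * B * κ / ε + 2 / ε + 1 < Real.sqrt n := by
    have : Tendsto (fun n : ℕ => Real.sqrt (n : ℝ)) atTop atTop :=
      Real.tendsto_sqrt_atTop.comp tendsto_natCast_atTop_atTop
    exact this.eventually_gt_atTop _
  filter_upwards [hr] with n hn
  rw [rpow32]
  set r : ℝ := Real.sqrt n with hrdef
  have hκ0 : 0 < κ := by positivity
  have hr0 : 1 < r := by
    have : 0 ≤ 2 * B * κ / ε + 2 / ε := by positivity
    linarith
  have hrn : r ^ 2 = (n : ℝ) := Real.sq_sqrt (by positivity)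
  have hrB : 2 * B * κ < ε * r := by
    have h5 : 2 * B * κ / ε < r := by
      have : 0 ≤ 2 / ε := by positivity
      linarith
    rw [div_lt_iff₀ hε] at h5
    linarith
  have hr2 : 2 < ε * r := by
    have h5 : 2 / ε < r := by
      have : 0 ≤ 2 * B * κ / ε := by positivity
      linarith
    rw [div_lt_iff₀ hε] at h5
    linarith
  have hr3 : 1 ≤ r ^ 3 := one_le_pow₀ hr0.le
  have hr3' : r ≤ r ^ 3 := by nlinarith [sq_nonneg r]
  -- `m`
  have hs : 1 / Real.sqrt 2 = Real.sqrt 2 / 2 := by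
    field_simp
    linarith
  set m : ℝ := (1 / Real.sqrt 2 + ε) * r ^ 3 - 1 with hm
  have hεr3 : 1 ≤ ε / 2 * r ^ 3 := by nlinarith
  have hm' : κ / 2 * r ^ 3 ≤ m := by
    rw [hm, hs, hκ]
    nlinarith
  have hm0 : 0 ≤ m := le_trans (by positivity) hm'
  have hext : (extremalNumber n (HG 3) : ℝ) ≤ m := by
    have hcard : Fintype.card (Fin n) = n := Fintype.card_fin n
    rw [← hcard]
    rw [SimpleGraph.extremalNumber_le_iff_of_nonneg (V := Fin n) (HG 3) hm0]
    intro G _ hG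
    by_contra hcon
    push Not at hcon
    have h6 := edge_ineq hG hη0 hη1
    rw [Fintype.card_fin, ← hB, edge_card_eq G _ (SimpleGraph.fintypeEdgeSet G)] at h6
    set S : ℝ := 2 * (#G.edgeFinset : ℝ) with hS
    have hS1 : κ * r ^ 3 < S := by
      have : κ / 2 * r ^ 3 < (#G.edgeFinset : ℝ) := lt_of_le_of_lt hm' hcon
      rw [hS]
      nlinarith
    have h7 : (1 - η) / 2 * S ^ 2 ≤ (n : ℝ) ^ 3 + B * (n : ℝ) * S := h6
    rw [← hrn] at h7
    have hS0 : 0 < S := lt_trans (by positivity) hS1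
    have hη2 : 0 ≤ (1 - η) / 2 := by linarith
    have h8 : S * ((1 - η) / 2 * S - B * r ^ 2) ≤ r ^ 6 := by
      have e1 : S * ((1 - η) / 2 * S - B * r ^ 2) = (1 - η) / 2 * S ^ 2 - B * r ^ 2 * S := by ring
      have e2 : (r ^ 2) ^ 3 = r ^ 6 := by ring
      rw [e1]
      rw [e2] at h7
      linarith
    have h9 : (1 - η) / 2 * (κ * r ^ 3) - B * r ^ 2 ≤ (1 - η) / 2 * S - B * r ^ 2 := by
      have := mul_le_mul_of_nonneg_left hS1.le hη2
      linarith
    have hbr : r < (1 - η) / 2 * κ ^ 2 * r - B * κ := by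
      have e1 := mul_le_mul_of_nonneg_right hmain (show (0 : ℝ) ≤ r by linarith)
      linarith
    have h10 : 0 < (1 - η) / 2 * (κ * r ^ 3) - B * r ^ 2 := by
      have h11 : 0 < κ * ((1 - η) / 2 * (κ * r ^ 3) - B * r ^ 2) := by
        have e1 : κ * ((1 - η) / 2 * (κ * r ^ 3) - B * r ^ 2) =
            r ^ 2 * ((1 - η) / 2 * κ ^ 2 * r - B * κ) := by ring
        rw [e1]
        exact mul_pos (by positivity) (by linarith)
      exact (mul_pos_iff_of_pos_left hκ0).mp h11
    have h12 : (κ * r ^ 3) * ((1 - η) / 2 * (κ * r ^ 3) - B * r ^ 2) < r ^ 6 := by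
      have e1 := mul_lt_mul_of_pos_right hS1 h10
      have e2 := mul_le_mul_of_nonneg_left h9 hS0.le
      linarith
    have h13 : (κ * r ^ 3) * ((1 - η) / 2 * (κ * r ^ 3) - B * r ^ 2) =
        r ^ 5 * ((1 - η) / 2 * κ ^ 2 * r - B * κ) := by ring
    rw [h13] at h12
    have h14 : r ^ 5 * r < r ^ 5 * ((1 - η) / 2 * κ ^ 2 * r - B * κ) :=
      mul_lt_mul_of_pos_left hbr (by positivity)
    have h15 : r ^ 5 * r = r ^ 6 := by ring
    linarith
  unfold fT
  rw [hm] at hext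
  linarith

end Pool.Agent.H42.BD
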