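import Mathlib
import Pool.Agent.H42.BD.Asymp

/-!
# The lower bound in asymptotic form, and the upper limit for `k = 3`
-/

set_option autoImplicit false

namespace Pool.Agent.H42.BD

open SimpleGraph Finset Filter

/-- The lower bound for all `k`. -/
lemma lower_all {k : ℕ} (hk : 2 ≤ k) {ε : ℝ} (hε : 0 < ε) :
    ∃ᶠ n : ℕ in atTop, 0 < n ∧
      (Real.sqrt ((k : ℝ) - 1) / 2 - ε) * (n : ℝ) ^ ((3 : ℝ) / 2) ≤ fT n k := by
  rw [Filter.frequently_atTop]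
  intro N
  set t : ℕ := k - 1 with ht
  have ht1 : 1 ≤ t := by omega
  have htr : (k : ℝ) - 1 = (t : ℝ) := by
    rw [ht, Nat.cast_sub (by omega)]
    simp
  rw [htr]
  obtain ⟨p, hpN, hp⟩ := Nat.exists_infinite_primes (N + ⌈Real.sqrt (t : ℝ) / (2 * ε)⌉₊ + 1)
  haveI : Fact p.Prime := ⟨hp⟩
  have hp1 : 1 ≤ p := hp.one_le
  have hpp : p ≤ p ^ 2 := by nlinarith
  refine ⟨t * p ^ 2, ?_, by positivity, ?_⟩
  · calc N ≤ p := by omega
      _ ≤ p ^ 2 := hpp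
      _ ≤ t * p ^ 2 := Nat.le_mul_of_pos_left _ (by omega)
  · have h1 := fT_lower (p := p) hk
    rw [← ht] at h1
    refine le_trans ?_ h1
    rw [rpow32]
    set s : ℝ := Real.sqrt (t : ℝ) with hs
    have hs2 : s ^ 2 = (t : ℝ) := Real.sq_sqrt (by positivity)
    have hs0 : 0 ≤ s := Real.sqrt_nonneg _
    have hsq : Real.sqrt (((t * p ^ 2 : ℕ) : ℝ)) = s * (p : ℝ) := by
      push_cast
      rw [Real.sqrt_mul (by positivity), Real.sqrt_sq (by positivity)]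
    rw [hsq, ← hs2]
    have hpε : s / 2 ≤ ε * (p : ℝ) := by
      have h2 : s / (2 * ε) ≤ (p : ℝ) := by
        have h3 := Nat.le_ceil (s / (2 * ε))
        have h4 : ((⌈s / (2 * ε)⌉₊ : ℕ) : ℝ) ≤ (p : ℝ) := by
          exact_mod_cast (by omega)
        linarith
      rw [div_le_iff₀ (by positivity)] at h2
      linarith
    have hp0 : (0 : ℝ) ≤ (p : ℝ) := by positivity
    have h5 : s ^ 3 * (p : ℝ) ^ 2 * (s / 2) ≤ s ^ 3 * (p : ℝ) ^ 2 * (ε * (p : ℝ)) :=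
      mul_le_mul_of_nonneg_left hpε (by positivity)
    have h6 : (s / 2 - ε) * (s * (p : ℝ)) ^ 3 =
        s ^ 4 * (p : ℝ) ^ 3 / 2 - s ^ 3 * (p : ℝ) ^ 2 * (ε * (p : ℝ)) := by ring
    have h7 : (s ^ 2) ^ 2 * (p : ℝ) ^ 2 * ((p : ℝ) - 1) / 2 =
        s ^ 4 * (p : ℝ) ^ 3 / 2 - s ^ 3 * (p : ℝ) ^ 2 * (s / 2) := by ring
    rw [h6, h7]
    linarith

/-- The lower bound for the quotient. -/
lemma lower_all_div {k : ℕ} (hk : 2 ≤ k) {ε : ℝ} (hε : 0 < ε) :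
    ∃ᶠ n : ℕ in atTop,
      Real.sqrt ((k : ℝ) - 1) / 2 - ε ≤ fT n k / (n : ℝ) ^ ((3 : ℝ) / 2) := by
  refine (lower_all hk hε).mono ?_
  rintro n ⟨hn, h⟩
  have : (0 : ℝ) < (n : ℝ) ^ ((3 : ℝ) / 2) := Real.rpow_pos_of_pos (by exact_mod_cast hn) _
  rw [le_div_iff₀ this]
  exact h

lemma fT_div_nonneg (n k : ℕ) : 0 ≤ fT n k / (n : ℝ) ^ ((3 : ℝ) / 2) := by
  unfold fT
  positivity

/-- The upper limit of `f(n; H_3) / n^(3/2)` is `1 / sqrt 2`. -/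
theorem limsup_three :
    Filter.limsup (fun n : ℕ => fT n 3 / (n : ℝ) ^ ((3 : ℝ) / 2)) atTop = 1 / Real.sqrt 2 := by
  have hup : ∀ ε : ℝ, 0 < ε →
      ∀ᶠ n : ℕ in atTop, fT n 3 / (n : ℝ) ^ ((3 : ℝ) / 2) ≤ 1 / Real.sqrt 2 + ε := by
    intro ε hε
    filter_upwards [upper_three hε, Filter.eventually_gt_atTop 0] with n hn hn0
    have : (0 : ℝ) < (n : ℝ) ^ ((3 : ℝ) / 2) := Real.rpow_pos_of_pos (by exact_mod_cast hn0) _
    rw [div_le_iff₀ this]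
    exact hn
  have hbdd : Filter.IsBoundedUnder (· ≤ ·) atTop
      (fun n : ℕ => fT n 3 / (n : ℝ) ^ ((3 : ℝ) / 2)) :=
    ⟨1 / Real.sqrt 2 + 1, by
      rw [Filter.eventually_map]
      exact hup 1 one_pos⟩
  have hcob : Filter.IsCoboundedUnder (· ≤ ·) atTop
      (fun n : ℕ => fT n 3 / (n : ℝ) ^ ((3 : ℝ) / 2)) :=
    Filter.IsCoboundedUnder.of_frequently_ge (a := 0)
      (Filter.Frequently.of_forall (fun n => fT_div_nonneg n 3))
  apply le_antisymm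
  · refine le_of_forall_pos_le_add (fun ε hε => ?_)
    exact Filter.limsup_le_of_le hcob (hup ε hε)
  · refine le_of_forall_pos_sub_le (fun ε hε => ?_)
    have h1 := lower_all_div (k := 3) (by norm_num) hε
    have h2 : Real.sqrt (((3 : ℕ) : ℝ) - 1) / 2 = 1 / Real.sqrt 2 := by
      have h3 : (((3 : ℕ) : ℝ) - 1) = 2 := by norm_num
      rw [h3]
      have h4 : Real.sqrt 2 ^ 2 = 2 := Real.sq_sqrt (by norm_num)
      have h5 : (0 : ℝ) < Real.sqrt 2 := Real.sqrt_pos.mpr (by norm_num)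
      rw [div_eq_div_iff (by norm_num) h5.ne']
      nlinarith
    rw [h2] at h1
    exact Filter.le_limsup_of_frequently_le h1 hbdd

end Pool.Agent.H42.BD
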