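import Mathlib
import Pool.Agent.H42.BD.Upper3

/-!
# The local inequality for all `k`, from Hall's theorem
-/

set_option autoImplicit false

namespace Pool.Agent.H42.BD

open SimpleGraph Finset
open scoped Classical

variable {V : Type*} [Fintype V] {G : SimpleGraph V}

/-- The common neighbours of the vertices `y i`, `i ∈ p`, other than `x`. -/
noncomputable def Zs (G : SimpleGraph V) {k : ℕ} (x : V) (y : Fin k → V) (p : Pr k) : Finset V :=
  univ.filter (fun z => z ≠ x ∧ ∀ i ∈ p.1, G.Adj (y i) z)

/-- Hall's condition gives a copy of `H_k`. -/
lemma contained_of_hall {k : ℕ} (x : V) (y : Fin k → V) (hy : Function.Injective y)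
    (hxy : ∀ i, G.Adj x (y i)) (hna : ∀ i j, ¬ G.Adj (y i) (y j))
    (hall : ∀ s : Finset (Pr k), s.card ≤ (s.biUnion (Zs G x y)).card) : HG k ⊑ G := by
  obtain ⟨z, hz, hzZ⟩ := (Finset.all_card_le_biUnion_card_iff_exists_injective (Zs G x y)).mp hall
  have hz' : ∀ p : Pr k, z p ≠ x ∧ ∀ i ∈ p.1, G.Adj (y i) (z p) := by
    intro p
    have := hzZ p
    rw [Zs, Finset.mem_filter] at this
    exact this.2
  refine contained_of x y z hy hz hxy (fun p i hi => (hz' p).2 i hi) (fun p => (hz' p).1) ?_
  intro p i hpi
  have hne : p.1.Nonempty := by
    rw [← Finset.card_pos, p.2]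
    norm_num
  obtain ⟨j, hj⟩ := hne
  have := (hz' p).2 j hj
  rw [hpi] at this
  exact hna j i this

/-- The weight with `1` added on the diagonal and on edges. -/
noncomputable def we (G : SimpleGraph V) (u v : V) : ℝ :=
  if u = v then 1 else wt G u v + (if G.Adj u v then 1 else 0)

lemma we_nonneg (u v : V) : 0 ≤ we G u v := by
  unfold we
  have := wt_nonneg (G := G) u v
  split_ifs <;> linarith

lemma we_comm (u v : V) : we G u v = we G v u := by
  unfold we
  rw [wt_comm]
  simp only [eq_comm, G.adj_comm]

/-- The inequality for tuples, over ordered pairs. -/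
lemma tuple_ineq {k : ℕ} (hk : 2 ≤ k) (hG : (HG k).Free G) (x : V) (y : Fin k → V)
    (hxy : ∀ i, G.Adj x (y i)) :
    2 ≤ ∑ i : Fin k, ∑ j : Fin k, (if i = j then 0 else we G (y i) (y j)) := by
  -- a pair of large weight suffices
  have hpair : ∀ i j : Fin k, i ≠ j → 1 ≤ we G (y i) (y j) →
      2 ≤ ∑ i : Fin k, ∑ j : Fin k, (if i = j then 0 else we G (y i) (y j)) := by
    intro i j hij h1
    have hnn : ∀ a b : Fin k, 0 ≤ (if a = b then 0 else we G (y a) (y b)) := by
      intro a b
      have := we_nonneg (G := G) (y a) (y b)
      split_ifs <;> linarith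
    have hrow : ∀ a b : Fin k, (if a = b then 0 else we G (y a) (y b)) ≤
        ∑ j : Fin k, (if a = j then 0 else we G (y a) (y j)) := by
      intro a b
      exact Finset.single_le_sum (f := fun j => if a = j then 0 else we G (y a) (y j))
        (fun j _ => hnn a j) (mem_univ b)
    have h2 : ∑ a ∈ ({i, j} : Finset (Fin k)),
        ∑ b : Fin k, (if a = b then 0 else we G (y a) (y b)) ≤
        ∑ a : Fin k, ∑ b : Fin k, (if a = b then 0 else we G (y a) (y b)) :=
      Finset.sum_le_sum_of_subset_of_nonneg (Finset.subset_univ _)
        (fun a _ _ => Finset.sum_nonneg (fun b _ => hnn a b))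
    rw [Finset.sum_pair hij] at h2
    have h3 := hrow i j
    have h4 := hrow j i
    rw [if_neg hij] at h3
    rw [if_neg hij.symm, we_comm] at h4
    linarith
  by_cases hinj : Function.Injective y
  · by_cases hna : ∀ i j, ¬ G.Adj (y i) (y j)
    · -- Hall's condition fails
      have hall : ¬ ∀ s : Finset (Pr k), s.card ≤ (s.biUnion (Zs G x y)).card := fun h =>
        hG (contained_of_hall x y hinj hxy hna h)
      push Not at hall
      obtain ⟨s, hs⟩ := hall
      have hspos : 0 < s.card := by omega
      have hsr : (0 : ℝ) < (s.card : ℝ) := by exact_mod_cast hspos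
      -- every pair of `s` has weight at least `1 / |s|`
      have hw : ∀ p ∈ s, ∀ i ∈ p.1, ∀ j ∈ p.1, i ≠ j →
          1 / (s.card : ℝ) ≤ we G (y i) (y j) := by
        intro p hp i hi j hj hij
        have hpij : p.1 = {i, j} := by
          symm
          apply Finset.eq_of_subset_of_card_le
          · intro a ha
            rcases Finset.mem_insert.mp ha with h | h
            · rw [h]; exact hi
            · rw [Finset.mem_singleton.mp h]; exact hj
          · rw [Finset.card_pair hij, p.2]
        have hcn : (cn G (y i) (y j)).erase x ⊆ Zs G x y p := by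
          intro z hz
          rw [Finset.mem_erase, mem_cn] at hz
          rw [Zs, Finset.mem_filter]
          refine ⟨mem_univ _, hz.1, ?_⟩
          intro a ha
          rw [hpij] at ha
          rcases Finset.mem_insert.mp ha with h | h
          · rw [h]; exact hz.2.1
          · rw [Finset.mem_singleton.mp h]; exact hz.2.2
        have hx : x ∈ cn G (y i) (y j) := mem_cn.mpr ⟨(hxy i).symm, (hxy j).symm⟩
        have h1 := Finset.card_erase_add_one hx
        have h2 := Finset.card_le_card hcn
        have h3 : (Zs G x y p).card ≤ (s.biUnion (Zs G x y)).card :=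
          Finset.card_le_card (Finset.subset_biUnion_of_mem (Zs G x y) hp)
        have h4 : (cn G (y i) (y j)).card ≤ s.card := by omega
        have h5 : 0 < (cn G (y i) (y j)).card := Finset.card_pos.mpr ⟨x, hx⟩
        have h6 : (0 : ℝ) < ((cn G (y i) (y j)).card : ℝ) := by exact_mod_cast h5
        have h7 : 1 / (s.card : ℝ) ≤ wt G (y i) (y j) := by
          unfold wt
          exact one_div_le_one_div_of_le h6 (by exact_mod_cast h4)
        unfold we
        rw [if_neg (fun h => hij (hinj h))]
        split_ifs <;> linarith
      -- the sum over ordered pairs is twice the sum over the pairs in `s`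
      have hsum : ∑ p ∈ s, (2 : ℝ) * (1 / (s.card : ℝ)) ≤
          ∑ i : Fin k, ∑ j : Fin k, (if i = j then 0 else we G (y i) (y j)) := by
        rw [← Finset.sum_product']
        -- the ordered pairs of a pair
        let O : Pr k → Finset (Fin k × Fin k) := fun p =>
          (p.1 ×ˢ p.1).filter (fun q => q.1 ≠ q.2)
        have hOcard : ∀ p : Pr k, (O p).card = 2 := by
          intro p
          obtain ⟨i, j, hij, hp⟩ := Finset.card_eq_two.mp p.2
          have : O p = {(i, j), (j, i)} := by
            ext ⟨a, b⟩
            simp only [O, hp, Finset.mem_filter, Finset.mem_product, Finset.mem_insert,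
              Finset.mem_singleton, Prod.mk.injEq, ne_eq]
            constructor
            · rintro ⟨⟨h1 | h1, h2 | h2⟩, h3⟩
              · exact absurd (h1.trans h2.symm) h3
              · exact Or.inl ⟨h1, h2⟩
              · exact Or.inr ⟨h1, h2⟩
              · exact absurd (h1.trans h2.symm) h3
            · rintro (⟨h1, h2⟩ | ⟨h1, h2⟩)
              · exact ⟨⟨Or.inl h1, Or.inr h2⟩, by rw [h1, h2]; exact hij⟩
              · exact ⟨⟨Or.inr h1, Or.inl h2⟩, by rw [h1, h2]; exact hij.symm⟩
          rw [this]
          refine Finset.card_pair ?_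
          intro h
          exact hij (congrArg Prod.fst h)
        have hdisj : (s : Set (Pr k)).PairwiseDisjoint O := by
          intro p _ q _ hpq
          rw [Function.onFun, Finset.disjoint_left]
          rintro ⟨a, b⟩ hap haq
          simp only [O, Finset.mem_filter, Finset.mem_product, ne_eq] at hap haq
          apply hpq
          apply Subtype.ext
          have e1 : ({a, b} : Finset (Fin k)) = p.1 := by
            apply Finset.eq_of_subset_of_card_le
            · intro c hc
              rcases Finset.mem_insert.mp hc with h | h
              · rw [h]; exact hap.1.1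
              · rw [Finset.mem_singleton.mp h]; exact hap.1.2
            · rw [Finset.card_pair hap.2, p.2]
          have e2 : ({a, b} : Finset (Fin k)) = q.1 := by
            apply Finset.eq_of_subset_of_card_le
            · intro c hc
              rcases Finset.mem_insert.mp hc with h | h
              · rw [h]; exact haq.1.1
              · rw [Finset.mem_singleton.mp h]; exact haq.1.2
            · rw [Finset.card_pair haq.2, q.2]
          rw [← e1, ← e2]
        have h8 : ∑ p ∈ s, (2 : ℝ) * (1 / (s.card : ℝ)) ≤
            ∑ p ∈ s, ∑ q ∈ O p, (if q.1 = q.2 then 0 else we G (y q.1) (y q.2)) := by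
          refine Finset.sum_le_sum (fun p hp => ?_)
          have h9 : ∀ q ∈ O p, 1 / (s.card : ℝ) ≤
              (if q.1 = q.2 then 0 else we G (y q.1) (y q.2)) := by
            intro q hq
            simp only [O, Finset.mem_filter, Finset.mem_product, ne_eq] at hq
            rw [if_neg hq.2]
            exact hw p hp q.1 hq.1.1 q.2 hq.1.2 hq.2
          have h10 := Finset.card_nsmul_le_sum (O p)
            (fun q => if q.1 = q.2 then 0 else we G (y q.1) (y q.2)) (1 / (s.card : ℝ)) h9
          rw [hOcard p, nsmul_eq_mul] at h10
          exact_mod_cast h10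
        refine le_trans h8 ?_
        rw [← Finset.sum_biUnion hdisj]
        refine Finset.sum_le_sum_of_subset_of_nonneg (Finset.subset_univ _) ?_
        intro q _ _
        have := we_nonneg (G := G) (y q.1) (y q.2)
        split_ifs <;> linarith
      rw [Finset.sum_const, nsmul_eq_mul] at hsum
      have : (s.card : ℝ) * (2 * (1 / (s.card : ℝ))) = 2 := by
        field_simp
      linarith
    · push Not at hna
      obtain ⟨i, j, hij⟩ := hna
      have hne : i ≠ j := by
        rintro rfl
        exact hij.ne rfl
      refine hpair i j hne ?_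
      unfold we
      rw [if_neg (fun h => hne (hinj h)), if_pos hij]
      have := wt_nonneg (G := G) (y i) (y j)
      linarith
  · rw [Function.Injective] at hinj
    push Not at hinj
    obtain ⟨i, j, hij, hne⟩ := hinj
    refine hpair i j hne ?_
    unfold we
    rw [if_pos hij]

end Pool.Agent.H42.BD
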