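import Mathlib
import Pool.Agent.H42.BD.LocalK

/-!
# The global inequality for all `k`
-/

set_option autoImplicit false

namespace Pool.Agent.H42.BD

open SimpleGraph Finset
open scoped Classical

set_option linter.unusedSectionVars false
set_option linter.unusedVariables false

variable {V : Type*} [Fintype V] {G : SimpleGraph V}

/-- The number of functions with two prescribed values. -/
lemma count_two {k : ℕ} {α : Type*} [Fintype α] (D : Finset α) {i j : Fin k} (hij : i ≠ j)
    {a b : α} (ha : a ∈ D) (hb : b ∈ D) :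
    ((Fintype.piFinset (fun _ : Fin k => D)).filter (fun y => y i = a ∧ y j = b)).card =
      D.card ^ (k - 2) := by
  have h1 : (Fintype.piFinset (fun _ : Fin k => D)).filter (fun y => y i = a ∧ y j = b) =
      Fintype.piFinset (fun l : Fin k => if l = i then {a} else if l = j then {b} else D) := by
    ext y
    rw [Finset.mem_filter, Fintype.mem_piFinset, Fintype.mem_piFinset]
    constructor
    · rintro ⟨h, h1, h2⟩ l
      by_cases hl : l = i
      · rw [if_pos hl, hl, h1]; exact Finset.mem_singleton_self a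
      · rw [if_neg hl]
        by_cases hl' : l = j
        · rw [if_pos hl', hl', h2]; exact Finset.mem_singleton_self b
        · rw [if_neg hl']; exact h l
    · intro h
      have hi := h i
      have hj := h j
      rw [if_pos rfl, Finset.mem_singleton] at hi
      rw [if_neg hij.symm, if_pos rfl, Finset.mem_singleton] at hj
      refine ⟨fun l => ?_, hi, hj⟩
      by_cases hl : l = i
      · rw [hl, hi]; exact ha
      · by_cases hl' : l = j
        · rw [hl', hj]; exact hb
        · have := h l
          rw [if_neg hl, if_neg hl'] at this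
          exact this
  rw [h1, Fintype.card_piFinset]
  have h2 : ∀ l : Fin k, (if l = i then ({a} : Finset α) else if l = j then {b} else D).card =
      if l ∈ ({i, j} : Finset (Fin k)) then 1 else D.card := by
    intro l
    by_cases hl : l = i
    · simp [hl]
    · by_cases hl' : l = j
      · rw [if_neg hl, if_pos hl', if_pos (by rw [hl']; simp), Finset.card_singleton]
      · simp [hl, hl']
  rw [Finset.prod_congr rfl (fun l _ => h2 l), Finset.prod_ite, Finset.prod_const_one, one_mul,
    Finset.prod_const]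
  congr 1
  have h3 : (univ.filter (fun l : Fin k => ¬ l ∈ ({i, j} : Finset (Fin k)))) =
      ({i, j} : Finset (Fin k))ᶜ := by
    ext l
    simp
  rw [h3, Finset.card_compl, Fintype.card_fin, Finset.card_pair hij]

/-- The sum over all functions of a function of two values. -/
lemma sum_two {k : ℕ} {α : Type*} [Fintype α] (D : Finset α) {i j : Fin k} (hij : i ≠ j)
    (g : α → α → ℝ) :
    ∑ y ∈ Fintype.piFinset (fun _ : Fin k => D), g (y i) (y j) =
      (D.card : ℝ) ^ (k - 2) * ∑ a ∈ D, ∑ b ∈ D, g a b := by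
  have h1 : ∀ y ∈ Fintype.piFinset (fun _ : Fin k => D), (y i, y j) ∈ D ×ˢ D := by
    intro y hy
    rw [Fintype.mem_piFinset] at hy
    exact Finset.mem_product.mpr ⟨hy i, hy j⟩
  rw [← Finset.sum_fiberwise_of_maps_to h1, ← Finset.sum_product', Finset.mul_sum]
  refine Finset.sum_congr rfl (fun q hq => ?_)
  rw [Finset.mem_product] at hq
  have h2 : ∑ y ∈ (Fintype.piFinset (fun _ : Fin k => D)).filter (fun y => (y i, y j) = q),
      g (y i) (y j) =
      ∑ y ∈ (Fintype.piFinset (fun _ : Fin k => D)).filter (fun y => (y i, y j) = q),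
      g q.1 q.2 := by
    refine Finset.sum_congr rfl (fun y hy => ?_)
    rw [Finset.mem_filter] at hy
    rw [← hy.2]
  rw [h2, Finset.sum_const, nsmul_eq_mul]
  congr 1
  have h3 : (Fintype.piFinset (fun _ : Fin k => D)).filter (fun y => (y i, y j) = q) =
      (Fintype.piFinset (fun _ : Fin k => D)).filter (fun y => y i = q.1 ∧ y j = q.2) := by
    refine Finset.filter_congr (fun y _ => ?_)
    rw [Prod.ext_iff]
  rw [h3, count_two D hij hq.1 hq.2]
  push_cast
  rfl

/-- The local inequality for all `k`. -/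
lemma local_ineq_k {k : ℕ} (hk : 2 ≤ k) (hG : (HG k).Free G) (x : V) (D : Finset V)
    (hD : ∀ y ∈ D, G.Adj x y) :
    2 * (D.card : ℝ) ^ 2 ≤ (k : ℝ) * ((k : ℝ) - 1) * ∑ a ∈ D, ∑ b ∈ D, we G a b := by
  by_cases hd : D.card = 0
  · have : D = ∅ := Finset.card_eq_zero.mp hd
    rw [this]
    simp
  have hd0 : (0 : ℝ) < (D.card : ℝ) := by exact_mod_cast Nat.pos_of_ne_zero hd
  have h1 : ∑ y ∈ Fintype.piFinset (fun _ : Fin k => D), (2 : ℝ) ≤
      ∑ y ∈ Fintype.piFinset (fun _ : Fin k => D),
        ∑ i : Fin k, ∑ j : Fin k, (if i = j then 0 else we G (y i) (y j)) := by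
    refine Finset.sum_le_sum (fun y hy => ?_)
    rw [Fintype.mem_piFinset] at hy
    exact tuple_ineq hk hG x y (fun i => hD _ (hy i))
  rw [Finset.sum_const, nsmul_eq_mul, Fintype.card_piFinset, Finset.prod_const, Finset.card_univ,
    Fintype.card_fin, Finset.sum_comm] at h1
  have h2 : ∀ i : Fin k, ∑ y ∈ Fintype.piFinset (fun _ : Fin k => D),
      ∑ j : Fin k, (if i = j then 0 else we G (y i) (y j)) =
      ((k : ℝ) - 1) * ((D.card : ℝ) ^ (k - 2) * ∑ a ∈ D, ∑ b ∈ D, we G a b) := by
    intro i
    rw [Finset.sum_comm]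
    have h3 : ∀ j : Fin k, ∑ y ∈ Fintype.piFinset (fun _ : Fin k => D),
        (if i = j then 0 else we G (y i) (y j)) =
        if i = j then 0 else ((D.card : ℝ) ^ (k - 2) * ∑ a ∈ D, ∑ b ∈ D, we G a b) := by
      intro j
      by_cases hij : i = j
      · rw [if_pos hij]
        simp only [if_pos hij, Finset.sum_const_zero]
      · rw [if_neg hij]
        simp only [if_neg hij]
        exact sum_two D hij (we G)
    rw [Finset.sum_congr rfl (fun j _ => h3 j), Finset.sum_ite, Finset.sum_const_zero, zero_add,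
      Finset.sum_const, nsmul_eq_mul]
    congr 1
    have h4 : (univ.filter (fun j : Fin k => ¬ i = j)) = ({i} : Finset (Fin k))ᶜ := by
      ext l
      simp [eq_comm]
    rw [h4, Finset.card_compl, Fintype.card_fin, Finset.card_singleton,
      Nat.cast_sub (by omega)]
    simp
  rw [Finset.sum_congr rfl (fun i _ => h2 i), Finset.sum_const, Finset.card_univ, Fintype.card_fin,
    nsmul_eq_mul] at h1
  have h5 : ((D.card ^ k : ℕ) : ℝ) = (D.card : ℝ) ^ (k - 2) * (D.card : ℝ) ^ 2 := by
    rw [← pow_add]
    push_cast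
    congr 1
    omega
  rw [h5] at h1
  have h6 : (0 : ℝ) < (D.card : ℝ) ^ (k - 2) := by positivity
  have h7 : (D.card : ℝ) ^ (k - 2) * (2 * (D.card : ℝ) ^ 2) ≤
      (D.card : ℝ) ^ (k - 2) * ((k : ℝ) * ((k : ℝ) - 1) * ∑ a ∈ D, ∑ b ∈ D, we G a b) := by
    nlinarith
  exact le_of_mul_le_mul_left h7 h6

/-- In an `H_k`-free graph `k` vertices have at most `C(k, 2)` common neighbours. -/
lemma few_common {k : ℕ} (hk : 2 ≤ k) (hG : (HG k).Free G) (u : Fin k → V)
    (hu : Function.Injective u) (S : Finset V) (hS : ∀ s ∈ S, ∀ i, G.Adj (u i) s) :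
    S.card ≤ k.choose 2 := by
  by_contra hcon
  push Not at hcon
  have hne : S.Nonempty := Finset.card_pos.mp (by omega)
  obtain ⟨s0, hs0⟩ := hne
  have h1 : k.choose 2 ≤ (S.erase s0).card := by
    have := Finset.card_erase_add_one hs0
    omega
  have h2 : Fintype.card (Pr k) ≤ Fintype.card (S.erase s0) := by
    have e1 : Fintype.card (Pr k) = k.choose 2 := by
      have := Fintype.card_finset_len (α := Fin k) 2
      rw [Fintype.card_fin] at this
      exact this
    rw [e1, Fintype.card_coe]
    exact h1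
  obtain ⟨z⟩ := Function.Embedding.nonempty_of_card_le h2
  refine hG (contained_of s0 u (fun p => (z p : V)) hu ?_ ?_ ?_ ?_ ?_)
  · intro p q hpq
    exact z.injective (Subtype.ext hpq)
  · intro i
    exact (hS s0 hs0 i).symm
  · intro p i _
    exact hS _ (Finset.mem_of_mem_erase (z p).2) i
  · intro p
    exact (Finset.mem_erase.mp (z p).2).1
  · intro p i h
    have := hS _ (Finset.mem_of_mem_erase (z p).2) i
    rw [h] at this
    exact this.ne rfl

/-- The sum of the powers of the degrees in a neighbourhood. -/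
lemma sum_pow_cn {j : ℕ} (hj : 1 ≤ j) (hG : (HG (j + 1)).Free G) (x : V) :
    ∑ y ∈ nb G x, ((cn G x y).card : ℝ) ^ j ≤
      (((j + 1).choose 2 : ℕ) + (j : ℝ) ^ 2) * ((nb G x).card : ℝ) ^ j := by
  set D := nb G x with hD
  set P := Fintype.piFinset (fun _ : Fin j => D) with hP
  -- the power counts functions
  have h1 : ∀ y ∈ D, ((cn G x y).card : ℝ) ^ j =
      ∑ u ∈ P, (if ∀ i, G.Adj y (u i) then (1 : ℝ) else 0) := by
    intro y _
    have e1 : (P.filter (fun u => ∀ i, G.Adj y (u i))) =
        Fintype.piFinset (fun _ : Fin j => cn G x y) := by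
      ext u
      rw [Finset.mem_filter, hP, Fintype.mem_piFinset, Fintype.mem_piFinset]
      constructor
      · rintro ⟨h2, h3⟩ i
        exact mem_cn.mpr ⟨mem_nb.mp (h2 i), h3 i⟩
      · intro h2
        exact ⟨fun i => mem_nb.mpr (mem_cn.mp (h2 i)).1, fun i => (mem_cn.mp (h2 i)).2⟩
    rw [← Finset.sum_filter, Finset.sum_const, nsmul_eq_mul, mul_one, e1, Fintype.card_piFinset,
      Finset.prod_const, Finset.card_univ, Fintype.card_fin]
    push_cast
    rfl
  rw [Finset.sum_congr rfl h1, Finset.sum_comm]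
  -- the number of common neighbours of `u`
  have h2 : ∀ u ∈ P, ∑ y ∈ D, (if ∀ i, G.Adj y (u i) then (1 : ℝ) else 0) ≤
      (((j + 1).choose 2 : ℕ) : ℝ) +
        ∑ a : Fin j, ∑ b : Fin j,
          (if a = b then 0 else (if u a = u b then (D.card : ℝ) else 0)) := by
    intro u hu
    rw [← Finset.sum_filter, Finset.sum_const, nsmul_eq_mul, mul_one]
    have hnn : ∀ a b : Fin j, (0 : ℝ) ≤
        (if a = b then 0 else (if u a = u b then (D.card : ℝ) else 0)) := by
      intro a b
      split_ifs <;> positivity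
    by_cases hinj : Function.Injective u
    · have h3 : (D.filter (fun y => ∀ i, G.Adj y (u i))).card ≤ (j + 1).choose 2 := by
        refine few_common (k := j + 1) (by omega) hG (Fin.cons x u) ?_ _ ?_
        · rw [Fin.cons_injective_iff]
          refine ⟨?_, hinj⟩
          rintro ⟨i, hi⟩
          rw [hP, Fintype.mem_piFinset] at hu
          have := mem_nb.mp (hu i)
          rw [hi] at this
          exact this.ne rfl
        · intro s hs i
          rw [Finset.mem_filter, hD, mem_nb] at hs
          refine Fin.cases ?_ (fun i => ?_) i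
          · rw [Fin.cons_zero]
            exact hs.1
          · rw [Fin.cons_succ]
            exact (hs.2 i).symm
      have h4 : ((D.filter (fun y => ∀ i, G.Adj y (u i))).card : ℝ) ≤
          (((j + 1).choose 2 : ℕ) : ℝ) := by exact_mod_cast h3
      have h5 : (0 : ℝ) ≤ ∑ a : Fin j, ∑ b : Fin j,
          (if a = b then 0 else (if u a = u b then (D.card : ℝ) else 0)) :=
        Finset.sum_nonneg (fun a _ => Finset.sum_nonneg (fun b _ => hnn a b))
      linarith
    · rw [Function.Injective] at hinj
      push Not at hinj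
      obtain ⟨a, b, hab, hne⟩ := hinj
      have h3 : ((D.filter (fun y => ∀ i, G.Adj y (u i))).card : ℝ) ≤ (D.card : ℝ) := by
        exact_mod_cast Finset.card_filter_le _ _
      have h4 : (D.card : ℝ) ≤ ∑ a : Fin j, ∑ b : Fin j,
          (if a = b then 0 else (if u a = u b then (D.card : ℝ) else 0)) := by
        have e1 : (D.card : ℝ) = (if a = b then 0 else (if u a = u b then (D.card : ℝ) else 0)) := by
          rw [if_neg hne, if_pos hab]
        have e2 : (if a = b then 0 else (if u a = u b then (D.card : ℝ) else 0)) ≤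
            ∑ b : Fin j, (if a = b then 0 else (if u a = u b then (D.card : ℝ) else 0)) :=
          Finset.single_le_sum (f := fun b => if a = b then 0 else
            (if u a = u b then (D.card : ℝ) else 0)) (fun b _ => hnn a b) (mem_univ b)
        have e3 : ∑ b : Fin j, (if a = b then 0 else (if u a = u b then (D.card : ℝ) else 0)) ≤
            ∑ a : Fin j, ∑ b : Fin j,
              (if a = b then 0 else (if u a = u b then (D.card : ℝ) else 0)) :=
          Finset.single_le_sum (f := fun a => ∑ b : Fin j, if a = b then 0 else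
            (if u a = u b then (D.card : ℝ) else 0))
            (fun a _ => Finset.sum_nonneg (fun b _ => hnn a b)) (mem_univ a)
        linarith [e1.le]
      have h5 : (0 : ℝ) ≤ (((j + 1).choose 2 : ℕ) : ℝ) := by positivity
      linarith
  refine le_trans (Finset.sum_le_sum h2) ?_
  rw [Finset.sum_add_distrib, Finset.sum_const, nsmul_eq_mul, hP, Fintype.card_piFinset,
    Finset.prod_const, Finset.card_univ, Fintype.card_fin, Finset.sum_comm]
  have h6 : ∀ a : Fin j, ∑ u ∈ P, ∑ b : Fin j,
      (if a = b then 0 else (if u a = u b then (D.card : ℝ) else 0)) ≤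
      (j : ℝ) * (D.card : ℝ) ^ j := by
    intro a
    rw [Finset.sum_comm]
    have h7 : ∀ b : Fin j, ∑ u ∈ P,
        (if a = b then 0 else (if u a = u b then (D.card : ℝ) else 0)) ≤ (D.card : ℝ) ^ j := by
      intro b
      by_cases hab : a = b
      · simp only [if_pos hab, Finset.sum_const_zero]
        positivity
      · simp only [if_neg hab]
        have h8 := sum_two (k := j) D hab (fun p q => if p = q then (D.card : ℝ) else 0)
        rw [← hP] at h8
        rw [h8]
        have h9 : ∑ p ∈ D, ∑ q ∈ D, (if p = q then (D.card : ℝ) else 0) = (D.card : ℝ) ^ 2 := by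
          have e1 : ∀ p ∈ D, ∑ q ∈ D, (if p = q then (D.card : ℝ) else 0) = (D.card : ℝ) := by
            intro p hp
            rw [Finset.sum_ite_eq, if_pos hp]
          rw [Finset.sum_congr rfl e1, Finset.sum_const, nsmul_eq_mul, sq]
        rw [h9, ← pow_add]
        have hj2 : 2 ≤ j := by
          by_contra hcon
          have : j = 1 := by omega
          subst this
          exact hab (Subsingleton.elim a b)
        have e2 : j - 2 + 2 = j := by omega
        rw [e2]
    refine le_trans (Finset.sum_le_sum (fun b _ => h7 b)) ?_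
    rw [Finset.sum_const, Finset.card_univ, Fintype.card_fin, nsmul_eq_mul]
  have h10 := Finset.sum_le_sum (fun a (_ : a ∈ (univ : Finset (Fin j))) => h6 a)
  rw [Finset.sum_const, Finset.card_univ, Fintype.card_fin, nsmul_eq_mul] at h10
  have h11 : ((D.card ^ j : ℕ) : ℝ) * (((j + 1).choose 2 : ℕ) : ℝ) =
      (((j + 1).choose 2 : ℕ) : ℝ) * (D.card : ℝ) ^ j := by
    push_cast
    ring
  rw [h11]
  have h12 : (j : ℝ) * ((j : ℝ) * (D.card : ℝ) ^ j) = (j : ℝ) ^ 2 * (D.card : ℝ) ^ j := by ring
  rw [h12] at h10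
  rw [hP] at h10
  rw [add_mul]
  linarith

/-- The adjacent pairs in a neighbourhood are few. -/
lemma Tx_le_k {k : ℕ} (hk : 2 ≤ k) {η : ℝ} (hη : 0 < η) :
    ∃ C : ℝ, 0 < C ∧ ∀ (V : Type) [Fintype V] (G : SimpleGraph V), (HG k).Free G → ∀ x : V,
      Tx G x ≤ η * ((nb G x).card : ℝ) ^ 2 + C * ((nb G x).card : ℝ) := by
  obtain ⟨j, rfl⟩ : ∃ j, k = j + 1 := ⟨k - 1, by omega⟩
  have hj : 1 ≤ j := by omega
  set M : ℝ := (((j + 1).choose 2 : ℕ) : ℝ) + (j : ℝ) ^ 2 with hM
  have hj0 : (1 : ℝ) ≤ (j : ℝ) := by exact_mod_cast hj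
  have hM0 : 0 < M := by
    have : (0 : ℝ) ≤ (((j + 1).choose 2 : ℕ) : ℝ) := by positivity
    nlinarith
  refine ⟨M / η ^ j, by positivity, ?_⟩
  intro V _ G hG x
  set d : ℝ := ((nb G x).card : ℝ) with hd
  have hd0 : 0 ≤ d := by positivity
  have hT0 := Tx_nonneg (G := G) x
  -- the trivial bound
  have htriv : Tx G x ≤ d ^ 2 := by
    unfold Tx
    have h1 : ∀ y ∈ nb G x, ((cn G x y).card : ℝ) ≤ d := by
      intro y _
      have : (cn G x y) ⊆ nb G x := by
        intro z hz
        exact mem_nb.mpr (mem_cn.mp hz).1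
      rw [hd]
      exact_mod_cast Finset.card_le_card this
    have h2 := Finset.sum_le_card_nsmul (nb G x) _ d h1
    rw [nsmul_eq_mul] at h2
    rw [sq]
    exact h2
  by_contra hcon
  push Not at hcon
  have hC0 : 0 < M / η ^ j := by positivity
  have h1 : M / η ^ j * d < d ^ 2 := by
    have : 0 ≤ η * d ^ 2 := by positivity
    linarith
  have hdpos : 0 < d := by
    rcases hd0.lt_or_eq with h | h
    · exact h
    · rw [← h] at h1
      simp at h1
  have h2 : M / η ^ j < d := by
    rw [sq] at h1
    exact lt_of_mul_lt_mul_right h1 hd0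
  have h3 : M < d * η ^ j := by
    rw [div_lt_iff₀ (by positivity)] at h2
    exact h2
  have h4 : η * d ^ 2 < Tx G x := by
    have : 0 ≤ M / η ^ j * d := by positivity
    linarith
  have h5 : (η * d ^ 2) ^ j ≤ Tx G x ^ j := pow_le_pow_left₀ (by positivity) h4.le j
  obtain ⟨i, rfl⟩ : ∃ i, j = i + 1 := ⟨j - 1, by omega⟩
  have h6 : Tx G x ^ (i + 1) ≤ d ^ i * ∑ y ∈ nb G x, ((cn G x y).card : ℝ) ^ (i + 1) := by
    unfold Tx
    exact pow_sum_le_card_mul_sum_pow (fun y _ => by positivity) i
  have h7 := sum_pow_cn hj hG x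
  rw [← hd, ← hM] at h7
  have h8 : Tx G x ^ (i + 1) ≤ d ^ i * (M * d ^ (i + 1)) :=
    le_trans h6 (mul_le_mul_of_nonneg_left h7 (by positivity))
  have h9 : (η * d ^ 2) ^ (i + 1) = d ^ i * (d * η ^ (i + 1) * d ^ (i + 1)) := by ring
  rw [h9] at h5
  have h10 : d ^ i * (M * d ^ (i + 1)) < d ^ i * (d * η ^ (i + 1) * d ^ (i + 1)) := by
    refine mul_lt_mul_of_pos_left ?_ (by positivity)
    exact mul_lt_mul_of_pos_right h3 (by positivity)
  linarith

end Pool.Agent.H42.BD
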