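import Mathlib
import Pool.Agent.H42.BD.UpperK
import Pool.Agent.H42.BD.Limsup

/-!
# The upper bound for all `k`
-/

set_option autoImplicit false

namespace Pool.Agent.H42.BD

open SimpleGraph Finset Filter

section
open scoped Classical

/-- The sum of the local inequalities. -/
lemma global_ineq_k {V : Type*} [Fintype V] {G : SimpleGraph V} {k : ℕ} (hk : 2 ≤ k)
    (hG : (HG k).Free G) :
    2 * ∑ x : V, ((nb G x).card : ℝ) ^ 2 ≤ (k : ℝ) * ((k : ℝ) - 1) *
      ((Fintype.card V : ℝ) ^ 2 + ∑ x : V, ((nb G x).card : ℝ) + ∑ x : V, Tx G x) := by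
  have hkk : 0 ≤ (k : ℝ) * ((k : ℝ) - 1) := by
    have : (2 : ℝ) ≤ (k : ℝ) := by exact_mod_cast hk
    nlinarith
  have h1 : ∑ x : V, 2 * ((nb G x).card : ℝ) ^ 2 ≤
      ∑ x : V, (k : ℝ) * ((k : ℝ) - 1) * ∑ y ∈ nb G x, ∑ y' ∈ nb G x, we G y y' :=
    Finset.sum_le_sum (fun x _ => local_ineq_k hk hG x (nb G x) (fun y hy => mem_nb.mp hy))
  rw [← Finset.mul_sum, ← Finset.mul_sum] at h1
  have h2 : ∑ x : V, ∑ y ∈ nb G x, ∑ y' ∈ nb G x, we G y y' =
      ∑ y : V, ∑ y' : V, ((cn G y y').card : ℝ) * we G y y' := by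
    have e1 : ∀ x : V, ∑ y ∈ nb G x, ∑ y' ∈ nb G x, we G y y' =
        ∑ y : V, ∑ y' : V, (if G.Adj y x ∧ G.Adj y' x then we G y y' else 0) := by
      intro x
      unfold nb
      rw [Finset.sum_filter]
      refine Finset.sum_congr rfl (fun y _ => ?_)
      by_cases h : G.Adj x y
      · rw [if_pos h, Finset.sum_filter]
        refine Finset.sum_congr rfl (fun y' _ => ?_)
        by_cases h' : G.Adj x y'
        · rw [if_pos h', if_pos ⟨h.symm, h'.symm⟩]
        · rw [if_neg h', if_neg (fun hc => h' hc.2.symm)]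
      · rw [if_neg h]
        symm
        refine Finset.sum_eq_zero (fun y' _ => ?_)
        rw [if_neg (fun hc => h hc.1.symm)]
    rw [Finset.sum_congr rfl (fun x _ => e1 x), Finset.sum_comm]
    refine Finset.sum_congr rfl (fun y _ => ?_)
    rw [Finset.sum_comm]
    refine Finset.sum_congr rfl (fun y' _ => ?_)
    rw [← Finset.sum_filter, Finset.sum_const, nsmul_eq_mul]
    rfl
  have h3 : ∀ y y' : V, ((cn G y y').card : ℝ) * we G y y' ≤
      1 + (if y = y' then ((nb G y).card : ℝ) else 0) +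
        (if G.Adj y y' then ((cn G y y').card : ℝ) else 0) := by
    intro y y'
    have hadj0 : (0 : ℝ) ≤ (if G.Adj y y' then ((cn G y y').card : ℝ) else 0) := by
      split_ifs <;> positivity
    unfold we
    by_cases h : y = y'
    · rw [if_pos h, if_pos h, ← h, cn_self]
      have : ¬ G.Adj y y := G.loopless.irrefl y
      rw [if_neg this]
      linarith
    · rw [if_neg h, if_neg h]
      have hw : ((cn G y y').card : ℝ) * wt G y y' ≤ 1 := by
        unfold wt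
        by_cases hc : ((cn G y y').card : ℝ) = 0
        · rw [hc]; norm_num
        · rw [mul_one_div_cancel hc]
      by_cases ha : G.Adj y y'
      · rw [if_pos ha, if_pos ha]
        nlinarith
      · rw [if_neg ha, if_neg ha]
        nlinarith
  have h4 : ∑ y : V, ∑ y' : V, ((cn G y y').card : ℝ) * we G y y' ≤
      (Fintype.card V : ℝ) ^ 2 + ∑ x : V, ((nb G x).card : ℝ) + ∑ x : V, Tx G x := by
    refine le_trans (Finset.sum_le_sum (fun y _ => Finset.sum_le_sum (fun y' _ => h3 y y'))) ?_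
    have e1 : ∀ y : V, ∑ y' : V, (1 + (if y = y' then ((nb G y).card : ℝ) else 0) +
        (if G.Adj y y' then ((cn G y y').card : ℝ) else 0)) =
        (Fintype.card V : ℝ) + ((nb G y).card : ℝ) + Tx G y := by
      intro y
      rw [Finset.sum_add_distrib, Finset.sum_add_distrib, Finset.sum_const, Finset.card_univ,
        nsmul_eq_mul, mul_one, Finset.sum_ite_eq, if_pos (mem_univ y)]
      congr 1
      unfold Tx nb
      rw [Finset.sum_filter]
    rw [Finset.sum_congr rfl (fun y _ => e1 y), Finset.sum_add_distrib, Finset.sum_add_distrib,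
      Finset.sum_const, Finset.card_univ, nsmul_eq_mul]
    nlinarith
  rw [h2] at h1
  exact le_trans h1 (mul_le_mul_of_nonneg_left h4 hkk)

/-- The inequality for the number of edges. -/
lemma edge_ineq_k {k : ℕ} (hk : 2 ≤ k) {η : ℝ} (hη : 0 < η)
    (hη1 : η < 2 / ((k : ℝ) * ((k : ℝ) - 1))) :
    ∃ B : ℝ, 0 < B ∧ ∀ (V : Type) [Fintype V] (G : SimpleGraph V), (HG k).Free G →
      (2 / ((k : ℝ) * ((k : ℝ) - 1)) - η) * (2 * (G.edgeFinset.card : ℝ)) ^ 2 ≤
        (Fintype.card V : ℝ) ^ 3 + B * (Fintype.card V : ℝ) * (2 * (G.edgeFinset.card : ℝ)) := by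
  obtain ⟨C, hC, hT⟩ := Tx_le_k hk hη
  refine ⟨1 + C, by positivity, ?_⟩
  intro V _ G hG
  set a : ℝ := (k : ℝ) * ((k : ℝ) - 1) with ha
  have ha0 : 0 < a := by
    have : (2 : ℝ) ≤ (k : ℝ) := by exact_mod_cast hk
    rw [ha]
    nlinarith
  have h1 := global_ineq_k hk hG
  rw [← ha] at h1
  have h2 : ∑ x : V, Tx G x ≤ ∑ x : V, (η * ((nb G x).card : ℝ) ^ 2 + C * ((nb G x).card : ℝ)) :=
    Finset.sum_le_sum (fun x _ => hT V G hG x)
  rw [Finset.sum_add_distrib, ← Finset.mul_sum, ← Finset.mul_sum] at h2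
  set Q : ℝ := ∑ x : V, ((nb G x).card : ℝ) ^ 2 with hQ
  have h3 : (∑ x : V, ((nb G x).card : ℝ)) ^ 2 ≤ (Fintype.card V : ℝ) * Q := by
    have := sq_sum_le_card_mul_sum_sq (s := (univ : Finset V)) (f := fun x => ((nb G x).card : ℝ))
    rwa [Finset.card_univ] at this
  rw [sum_nb] at h1 h2 h3
  set S : ℝ := 2 * (G.edgeFinset.card : ℝ) with hS
  have hn : (0 : ℝ) ≤ (Fintype.card V : ℝ) := by positivity
  have h4 : 2 / a * Q ≤ (Fintype.card V : ℝ) ^ 2 + S + ∑ x : V, Tx G x := by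
    rw [div_mul_eq_mul_div, div_le_iff₀ ha0]
    linarith
  have h5 : (2 / a - η) * Q ≤ (Fintype.card V : ℝ) ^ 2 + (1 + C) * S := by linarith
  have h6 : 0 ≤ 2 / a - η := by linarith
  have h7 := mul_le_mul_of_nonneg_left h3 h6
  have h8 := mul_le_mul_of_nonneg_left h5 hn
  have h9 : (2 / a - η) * ((Fintype.card V : ℝ) * Q) = (Fintype.card V : ℝ) * ((2 / a - η) * Q) := by
    ring
  have h10 : (Fintype.card V : ℝ) * ((Fintype.card V : ℝ) ^ 2 + (1 + C) * S) =
      (Fintype.card V : ℝ) ^ 3 + (1 + C) * (Fintype.card V : ℝ) * S := by ring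
  linarith

end

/-- From the inequality for the number of edges to the asymptotic bound. -/
lemma upper_of_ineq {k : ℕ} {a : ℝ} (ha : 0 < a)
    (h : ∀ η : ℝ, 0 < η → η < a → ∃ B : ℝ, 0 < B ∧ ∀ (n : ℕ) (G : SimpleGraph (Fin n))
      [DecidableRel G.Adj], (HG k).Free G →
      (a - η) * (2 * (G.edgeFinset.card : ℝ)) ^ 2 ≤
        (n : ℝ) ^ 3 + B * (n : ℝ) * (2 * (G.edgeFinset.card : ℝ)))
    {ε : ℝ} (hε : 0 < ε) :
    ∀ᶠ n : ℕ in atTop, fT n k ≤ (1 / (2 * Real.sqrt a) + ε) * (n : ℝ) ^ ((3 : ℝ) / 2) := by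
  classical
  set s : ℝ := Real.sqrt a with hs
  have hs0 : 0 < s := Real.sqrt_pos.mpr ha
  have hs2 : s ^ 2 = a := Real.sq_sqrt ha.le
  set κ : ℝ := 1 / s + ε with hκ
  have hκ0 : 0 < κ := by positivity
  set δ : ℝ := ε * s with hδ
  have hδ0 : 0 < δ := by positivity
  set η : ℝ := a * (δ / (1 + 2 * δ)) with hη
  have hη0 : 0 < η := by positivity
  have hη1 : η < a := by
    rw [hη]
    have : δ / (1 + 2 * δ) < 1 := by
      rw [div_lt_one (by positivity)]
      linarith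
    nlinarith
  obtain ⟨B, hB0, hB⟩ := h η hη0 hη1
  have hmain : 1 + δ ≤ (a - η) * κ ^ 2 := by
    have h3 : a * κ ^ 2 = (1 + δ) ^ 2 := by
      have e1 : s * κ = 1 + δ := by
        rw [hκ, hδ]
        field_simp
      rw [← hs2, ← mul_pow, e1]
    have h4 : (a - η) * κ ^ 2 = (1 - δ / (1 + 2 * δ)) * (1 + δ) ^ 2 := by
      rw [← h3, hη]
      ring
    have h5 : 1 - δ / (1 + 2 * δ) = (1 + δ) / (1 + 2 * δ) := by
      field_simp
      ring
    rw [h4, h5, div_mul_eq_mul_div, le_div_iff₀ (by positivity)]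
    nlinarith [sq_nonneg δ, mul_pos hδ0 hδ0]
  have hr : ∀ᶠ n : ℕ in atTop, B * κ / δ + 2 / ε + 1 < Real.sqrt n := by
    have : Tendsto (fun n : ℕ => Real.sqrt (n : ℝ)) atTop atTop :=
      Real.tendsto_sqrt_atTop.comp tendsto_natCast_atTop_atTop
    exact this.eventually_gt_atTop _
  filter_upwards [hr] with n hn
  rw [rpow32]
  set r : ℝ := Real.sqrt n with hrdef
  have hr0 : 1 < r := by
    have : 0 ≤ B * κ / δ + 2 / ε := by positivity
    linarith
  have hrn : r ^ 2 = (n : ℝ) := Real.sq_sqrt (by positivity)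
  have hrB : B * κ < δ * r := by
    have h5 : B * κ / δ < r := by
      have : 0 ≤ 2 / ε := by positivity
      linarith
    rw [div_lt_iff₀ hδ0] at h5
    linarith
  have hr2 : 2 < ε * r := by
    have h5 : 2 / ε < r := by
      have : 0 ≤ B * κ / δ := by positivity
      linarith
    rw [div_lt_iff₀ hε] at h5
    linarith
  have hr3 : 1 ≤ r ^ 3 := one_le_pow₀ hr0.le
  have hr3' : r ≤ r ^ 3 := by
    have : 1 ≤ r ^ 2 := one_le_pow₀ hr0.le
    nlinarith
  have hsh : 1 / (2 * s) = 1 / s / 2 := by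
    field_simp
  set m : ℝ := (1 / (2 * s) + ε) * r ^ 3 - 1 with hm
  have hεr3 : 1 ≤ ε / 2 * r ^ 3 := by
    have := mul_le_mul_of_nonneg_left hr3' hε.le
    linarith
  have hm' : κ / 2 * r ^ 3 ≤ m := by
    have e1 : m = κ / 2 * r ^ 3 + (ε / 2 * r ^ 3 - 1) := by
      rw [hm, hsh, hκ]
      ring
    linarith
  have hm0 : 0 ≤ m := le_trans (by positivity) hm'
  have hext : (extremalNumber n (HG k) : ℝ) ≤ m := by
    have hcard : Fintype.card (Fin n) = n := Fintype.card_fin n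
    rw [← hcard]
    rw [SimpleGraph.extremalNumber_le_iff_of_nonneg (V := Fin n) (HG k) hm0]
    intro G _ hG
    by_contra hcon
    push Not at hcon
    have h7 := hB n G hG
    set S : ℝ := 2 * (#G.edgeFinset : ℝ) with hS
    have hS1 : κ * r ^ 3 < S := by
      have : κ / 2 * r ^ 3 < (#G.edgeFinset : ℝ) := lt_of_le_of_lt hm' hcon
      rw [hS]
      linarith
    rw [← hrn] at h7
    have hS0 : 0 < S := lt_trans (by positivity) hS1
    have hη2 : 0 ≤ a - η := by linarith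
    have h8 : S * ((a - η) * S - B * r ^ 2) ≤ r ^ 6 := by
      have e1 : S * ((a - η) * S - B * r ^ 2) = (a - η) * S ^ 2 - B * r ^ 2 * S := by ring
      have e2 : (r ^ 2) ^ 3 = r ^ 6 := by ring
      rw [e1]
      rw [e2] at h7
      linarith
    have h9 : (a - η) * (κ * r ^ 3) - B * r ^ 2 ≤ (a - η) * S - B * r ^ 2 := by
      have := mul_le_mul_of_nonneg_left hS1.le hη2
      linarith
    have hbr : r < (a - η) * κ ^ 2 * r - B * κ := by
      have e1 := mul_le_mul_of_nonneg_right hmain (show (0 : ℝ) ≤ r by linarith)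
      linarith
    have h10 : 0 < (a - η) * (κ * r ^ 3) - B * r ^ 2 := by
      have h11 : 0 < κ * ((a - η) * (κ * r ^ 3) - B * r ^ 2) := by
        have e1 : κ * ((a - η) * (κ * r ^ 3) - B * r ^ 2) =
            r ^ 2 * ((a - η) * κ ^ 2 * r - B * κ) := by ring
        rw [e1]
        exact mul_pos (by positivity) (by linarith)
      exact (mul_pos_iff_of_pos_left hκ0).mp h11
    have h12 : (κ * r ^ 3) * ((a - η) * (κ * r ^ 3) - B * r ^ 2) < r ^ 6 := by
      have e1 := mul_lt_mul_of_pos_right hS1 h10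
      have e2 := mul_le_mul_of_nonneg_left h9 hS0.le
      linarith
    have h13 : (κ * r ^ 3) * ((a - η) * (κ * r ^ 3) - B * r ^ 2) =
        r ^ 5 * ((a - η) * κ ^ 2 * r - B * κ) := by ring
    rw [h13] at h12
    have h14 : r ^ 5 * r < r ^ 5 * ((a - η) * κ ^ 2 * r - B * κ) :=
      mul_lt_mul_of_pos_left hbr (by positivity)
    have h15 : r ^ 5 * r = r ^ 6 := by ring
    linarith
  unfold fT
  rw [hm] at hext
  linarith

/-- The upper bound for all `k`. -/
lemma upper_all {k : ℕ} (hk : 2 ≤ k) {ε : ℝ} (hε : 0 < ε) :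
    ∀ᶠ n : ℕ in atTop,
      fT n k ≤ (Real.sqrt ((k : ℝ) * ((k : ℝ) - 1) / 8) + ε) * (n : ℝ) ^ ((3 : ℝ) / 2) := by
  have hk2 : (2 : ℝ) ≤ (k : ℝ) := by exact_mod_cast hk
  have hkk : 0 < (k : ℝ) * ((k : ℝ) - 1) := by nlinarith
  have ha : 0 < 2 / ((k : ℝ) * ((k : ℝ) - 1)) := by positivity
  have h1 := upper_of_ineq (k := k) ha (fun η hη hη1 => by
    obtain ⟨B, hB0, hB⟩ := edge_ineq_k hk hη hη1
    refine ⟨B, hB0, fun n G _ hG => ?_⟩
    have h2 := hB (Fin n) G hG
    rw [Fintype.card_fin, edge_card_eq G _ (SimpleGraph.fintypeEdgeSet G)] at h2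
    exact h2) hε
  have h3 : 1 / (2 * Real.sqrt (2 / ((k : ℝ) * ((k : ℝ) - 1)))) =
      Real.sqrt ((k : ℝ) * ((k : ℝ) - 1) / 8) := by
    have e1 : (0 : ℝ) ≤ 1 / (2 * Real.sqrt (2 / ((k : ℝ) * ((k : ℝ) - 1)))) := by positivity
    rw [eq_comm, Real.sqrt_eq_iff_mul_self_eq (by positivity) e1]
    have e2 : Real.sqrt (2 / ((k : ℝ) * ((k : ℝ) - 1))) ^ 2 = 2 / ((k : ℝ) * ((k : ℝ) - 1)) :=
      Real.sq_sqrt ha.le
    have e3 : 1 / (2 * Real.sqrt (2 / ((k : ℝ) * ((k : ℝ) - 1)))) *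
        (1 / (2 * Real.sqrt (2 / ((k : ℝ) * ((k : ℝ) - 1))))) =
        1 / (4 * Real.sqrt (2 / ((k : ℝ) * ((k : ℝ) - 1))) ^ 2) := by
      rw [one_div_mul_one_div]
      ring
    rw [e3, e2]
    field_simp
    ring
  rw [h3] at h1
  exact h1

/-- The upper limit for all `k`. -/
lemma limsup_bounds {k : ℕ} (hk : 2 ≤ k) :
    Real.sqrt ((k : ℝ) - 1) / 2 ≤
      Filter.limsup (fun n : ℕ => fT n k / (n : ℝ) ^ ((3 : ℝ) / 2)) atTop ∧
    Filter.limsup (fun n : ℕ => fT n k / (n : ℝ) ^ ((3 : ℝ) / 2)) atTop ≤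
      Real.sqrt ((k : ℝ) * ((k : ℝ) - 1) / 8) := by
  have hup : ∀ ε : ℝ, 0 < ε → ∀ᶠ n : ℕ in atTop,
      fT n k / (n : ℝ) ^ ((3 : ℝ) / 2) ≤ Real.sqrt ((k : ℝ) * ((k : ℝ) - 1) / 8) + ε := by
    intro ε hε
    filter_upwards [upper_all hk hε, Filter.eventually_gt_atTop 0] with n hn hn0
    have : (0 : ℝ) < (n : ℝ) ^ ((3 : ℝ) / 2) := Real.rpow_pos_of_pos (by exact_mod_cast hn0) _
    rw [div_le_iff₀ this]
    exact hn
  have hbdd : Filter.IsBoundedUnder (· ≤ ·) atTop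
      (fun n : ℕ => fT n k / (n : ℝ) ^ ((3 : ℝ) / 2)) :=
    ⟨Real.sqrt ((k : ℝ) * ((k : ℝ) - 1) / 8) + 1, by
      rw [Filter.eventually_map]
      exact hup 1 one_pos⟩
  have hcob : Filter.IsCoboundedUnder (· ≤ ·) atTop
      (fun n : ℕ => fT n k / (n : ℝ) ^ ((3 : ℝ) / 2)) :=
    Filter.IsCoboundedUnder.of_frequently_ge (a := 0)
      (Filter.Frequently.of_forall (fun n => fT_div_nonneg n k))
  constructor
  · refine le_of_forall_pos_sub_le (fun ε hε => ?_)
    exact Filter.le_limsup_of_frequently_le (lower_all_div hk hε) hbdd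
  · refine le_of_forall_pos_le_add (fun ε hε => ?_)
    exact Filter.limsup_le_of_le hcob (hup ε hε)

end Pool.Agent.H42.BD
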